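import Mathlib
import Pool.Agent.Lib.MP_7ab245_nt.Solv.Defs

/-! Definitions for part F (deduction of the theorem on solvable Galois groups). -/

set_option autoImplicit false

namespace Pool.Agent.Lib.MP_7ab245_nt.Solv

open Polynomial

/-- Mahler measure of an integer polynomial -/
noncomputable def M (f : ℤ[X]) : ℝ := (f.map (Int.castRingHom ℂ)).mahlerMeasure

/-- `X^{deg h} h(X + 1/X)` -/
noncomputable def recip (h : ℤ[X]) : ℤ[X] :=
  ∑ k ∈ Finset.range (h.natDegree + 1), C (h.coeff k) * (X ^ 2 + 1) ^ k * X ^ (h.natDegree - k)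

/-- `f` over the rationals -/
noncomputable def rat (f : ℤ[X]) : ℚ[X] := f.map (Int.castRingHom ℚ)

/-- The `ℚ`-linear representation of a group `G` on the functions `G → ℝ` by right translation. -/
noncomputable def rep (G : Type) [Group G] : Representation ℚ G (G → ℝ) where
  toFun t :=
    { toFun := fun u s => u (s * t)
      map_add' := fun _ _ => rfl
      map_smul' := fun _ _ => rfl }
  map_one' := by
    ext u s
    simp
  map_mul' := by
    intro a b
    ext u s
    simp [mul_assoc]

@[simp] theorem rep_apply {G : Type} [Group G] (t : G) (u : G → ℝ) (s : G) :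
    rep G t u s = u (s * t) := rfl

/-- The logarithmic embedding: `lg ι y s = log |ι (s y)|`. -/
noncomputable def lg {Ω : Type} [Field Ω] [NumberField Ω] (ι : Ω →+* ℂ) (y : Ω) :
    (Ω ≃ₐ[ℚ] Ω) → ℝ := fun s => Real.log ‖ι (s y)‖

/-- `g` is a monic irreducible integer polynomial of minimal degree among those which split in `Ω`
and have Mahler measure `> 1` and `≤ B`. -/
structure MinPoly (Ω : Type) [Field Ω] [NumberField Ω] (B : ℝ) (g : ℤ[X]) : Prop where
  monic : g.Monic
  irr : Irreducible g
  splits : (g.map (algebraMap ℤ Ω)).Splits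
  one_lt : 1 < M g
  le : M g ≤ B
  min : ∀ g' : ℤ[X], g'.Monic → Irreducible g' → (g'.map (algebraMap ℤ Ω)).Splits →
    1 < M g' → M g' ≤ B → g.natDegree ≤ g'.natDegree

end Pool.Agent.Lib.MP_7ab245_nt.Solv
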