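import Mathlib
import Pool.Agent.Lib.MP_7ab245_nt.Solv.F.Base

/-! The Galois group of a polynomial as a quotient, with an embedding of the splitting field. -/

set_option autoImplicit false

open Polynomial

namespace Pool.Agent.Lib.MP_7ab245_nt.Solv

theorem exists_embed_gen {K : Type} [Field K] (p : K[X]) (Ω : Type) [Field Ω]
    [Algebra K Ω] [Normal K Ω] (hs : (p.map (algebraMap K Ω)).Splits) :
    ∃ π : (Ω ≃ₐ[K] Ω) →* p.Gal, Function.Surjective π ∧ ∃ e : p.SplittingField →ₐ[K] Ω,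
      ∀ (s : Ω ≃ₐ[K] Ω) (z : p.SplittingField), e ((π s) z) = s (e z) := by
  have : Fact ((p.map (algebraMap K Ω)).Splits) := ⟨hs⟩
  refine ⟨Polynomial.Gal.restrict p Ω, Polynomial.Gal.restrict_surjective p Ω,
    IsScalarTower.toAlgHom K p.SplittingField Ω, fun s z => ?_⟩
  exact AlgEquiv.restrictNormal_commutes s p.SplittingField z

/-- with the roots -/
theorem exists_embed {Ω : Type} [Field Ω] [NumberField Ω] [IsGalois ℚ Ω] (h : ℤ[X])
    (hs : (h.map (algebraMap ℤ Ω)).Splits) :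
    ∃ π : (Ω ≃ₐ[ℚ] Ω) →* (rat h).Gal, Function.Surjective π ∧
      ∃ e : (rat h).SplittingField →+* Ω, ∀ (s : Ω ≃ₐ[ℚ] Ω) (z : (rat h).SplittingField),
        e ((π s) z) = s (e z) := by
  have hs' : ((rat h).map (algebraMap ℚ Ω)).Splits := by
    rw [rat, Polynomial.map_map]
    have : (algebraMap ℚ Ω).comp (Int.castRingHom ℚ) = algebraMap ℤ Ω := RingHom.ext_int _ _
    rw [this]
    exact hs
  obtain ⟨π, h1, e, he⟩ := exists_embed_gen (rat h) Ω hs'
  exact ⟨π, h1, e.toRingHom, fun s z => he s z⟩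

end Pool.Agent.Lib.MP_7ab245_nt.Solv
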