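import Mathlib
import Pool.Agent.Lib.MP_7ab245_nt.Solv.SX.AS
import Pool.Agent.Lib.MP_7ab245_nt.Solv.GT.FixF

/-! From groups to fields: small intermediate fields and an almost simple group. -/

set_option autoImplicit false

open Polynomial IntermediateField

namespace Pool.Agent.Lib.MP_7ab245_nt.Solv

/-- `K⟮θ⟯` has no proper subfields of degree `> n ^ (1 / κ)` over `K`, and the Galois group of
`θ` over some proper subfield `F` is almost simple, with `n ^ κ < |Aut T|` for the nonabelian simple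
normal subgroup `T`. -/
def ASOver (K : Type) {E : Type} [Field K] [Field E] [Algebra K E] (θ : E) (n κ : ℕ) : Prop :=
  (∀ L : IntermediateField K E, L < K⟮θ⟯ → Module.finrank K L ^ κ ≤ n) ∧
    ∃ F : IntermediateField K E, F < K⟮θ⟯ ∧ ∃ T : Subgroup (minpoly F θ).Gal, T.Normal ∧
      IsSimpleGroup T ∧ (∃ a b : T, a * b ≠ b * a) ∧
      Subgroup.centralizer (T : Set (minpoly F θ).Gal) = ⊥ ∧ n ^ κ < Nat.card (MulAut T)

theorem asOver_of_group {K E : Type} [Field K] [Field E] [Algebra K E] [FiniteDimensional K E]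
    [IsGalois K E] (θ : E) (n κ : ℕ) {G W : Type} [Group G] [AddCommGroup W] [Module ℚ W]
    (ρ : Representation ℚ G W) (w : W) (φ : G →* (E ≃ₐ[K] E)) (hφ : Function.Surjective φ)
    (hkey : ∀ s t, (φ s) θ = (φ t) θ ↔ SX.SameL ρ w s t) (hn : SX.osz ρ w = 2 * n)
    (hA : ∀ S : Subgroup (E ≃ₐ[K] E), (∀ g, SX.SameL ρ w g 1 → φ g ∈ S) →
      (∃ g, φ g ∈ S ∧ ¬ SX.SameL ρ w g 1) → 2 * S.index ^ κ ≤ SX.osz ρ w)
    (T : Subgroup (E ≃ₐ[K] E)) (hna : SX.NonAb T)
    (hsimple : ∀ R' : Subgroup (E ≃ₐ[K] E), R' ≤ T → (∀ t ∈ T, ∀ x ∈ R', t * x * t⁻¹ ∈ R') →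
      R' = ⊥ ∨ R' = T)
    (hmove : ∃ g, φ g ∈ T ∧ ¬ SX.SameL ρ w g 1) (hcard : SX.osz ρ w ^ κ < Nat.card (MulAut T))
    (hstab : ∀ g, SX.SameL ρ w g 1 → SX.Nrm T (φ g))
    (hcent : ∀ g, SX.Nrm T (φ g) →
      (∀ t s, φ t ∈ T → SX.Nrm T (φ s) → SX.SameL ρ w (g * t * s) (t * g * s)) →
        ∀ s, SX.Nrm T (φ s) → SX.SameL ρ w (g * s) s) : ASOver K θ n κ := by
  classical
  have hone : ∀ g, SX.SameL ρ w g 1 ↔ (φ g) θ = θ := by
    intro g
    rw [← hkey, map_one, AlgEquiv.one_apply]
  constructor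
  · intro L hL
    have h1 : ∀ g : E ≃ₐ[K] E, g θ = θ → g ∈ L.fixingSubgroup := by
      intro g hg
      rw [IntermediateField.mem_fixingSubgroup_iff]
      intro x hx
      have hx' : x ∈ K⟮θ⟯ := hL.le hx
      have h2 : K⟮θ⟯ ≤ fixedField (Subgroup.zpowers g) := by
        rw [adjoin_simple_le_iff, mem_fixedField_iff]
        intro f hf
        obtain ⟨k, rfl⟩ := Subgroup.mem_zpowers_iff.1 hf
        have h3 : g ∈ MulAction.stabilizer (E ≃ₐ[K] E) θ := hg
        exact Subgroup.zpow_mem _ h3 k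
      have h4 := h2 hx'
      rw [mem_fixedField_iff] at h4
      exact h4 g (Subgroup.mem_zpowers g)
    have h2 : ∃ g ∈ L.fixingSubgroup, g θ ≠ θ := by
      by_contra hcon
      push Not at hcon
      apply hL.not_ge
      rw [adjoin_simple_le_iff, ← IsGalois.fixedField_fixingSubgroup L, mem_fixedField_iff]
      exact fun f hf => hcon f hf
    have h3 : L.fixingSubgroup.index = Module.finrank K L := by
      have h4 : Nat.card L.fixingSubgroup = Module.finrank L E :=
        IsGalois.card_fixingSubgroup_eq_finrank L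
      have h5 : Module.finrank K L * Module.finrank L E = Module.finrank K E :=
        Module.finrank_mul_finrank K L E
      have h6 : Nat.card (E ≃ₐ[K] E) = Module.finrank K E := IsGalois.card_aut_eq_finrank K E
      have h7 := L.fixingSubgroup.card_mul_index
      have h8 : 0 < Nat.card L.fixingSubgroup := Nat.card_pos
      rw [h6, ← h5, mul_comm, ← h4] at h7
      exact Nat.eq_of_mul_eq_mul_right h8 h7
    have h4 := hA L.fixingSubgroup (fun g hg => h1 _ ((hone g).1 hg)) (by
      obtain ⟨g, hg, hgθ⟩ := h2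
      obtain ⟨g', rfl⟩ := hφ g
      exact ⟨g', hg, fun h => hgθ ((hone g').1 h)⟩)
    rw [hn, h3] at h4
    omega
  · have hmem : ∀ g, g ∈ Subgroup.normalizer (T : Set (E ≃ₐ[K] E)) ↔ SX.Nrm T g := by
      intro g
      constructor
      · intro h t ht
        exact (Subgroup.mem_normalizer_iff.1 h t).1 ht
      · intro h
        exact Subgroup.mem_normalizer_fintype h
    obtain ⟨F, hF, hFd, T', hT'n, hT's, hT'na, hT'c, hT'card⟩ :=
      GT.almost_simple_over θ (Subgroup.normalizer (T : Set (E ≃ₐ[K] E))) T (by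
        intro g hg
        obtain ⟨g', rfl⟩ := hφ g
        exact (hmem _).2 (hstab g' ((hone g').2 hg))) Subgroup.le_normalizer (by
        intro s hs t ht
        exact (hmem s).1 hs t ht) hsimple hna (by
        obtain ⟨g, hg, hgw⟩ := hmove
        exact ⟨φ g, hg, fun h => hgw ((hone g).2 h)⟩) (by
        intro g hg hgt s hs
        obtain ⟨g', rfl⟩ := hφ g
        obtain ⟨s', rfl⟩ := hφ s
        have h1 := hcent g' ((hmem _).1 hg) (by
          intro t s ht hs
          rw [← hkey, map_mul, map_mul, map_mul, map_mul]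
          exact hgt _ ht _ ((hmem _).2 hs)) s' ((hmem _).1 hs)
        rw [← hkey, map_mul] at h1
        exact h1)
    have hlt : F < K⟮θ⟯ := by
      refine lt_of_le_of_ne hF ?_
      intro hFe
      have hθF : θ ∈ F := by
        rw [hFe]
        exact mem_adjoin_simple_self K θ
      have h1 : minpoly F θ = X - C (⟨θ, hθF⟩ : F) := minpoly.eq_X_sub_C E (⟨θ, hθF⟩ : F)
      have h2 : Subsingleton (minpoly F θ).Gal := by
        rw [h1]
        infer_instance
      have h3 : Nontrivial T' := hT's.toNontrivial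
      obtain ⟨a, b, hab⟩ := h3
      exact hab (Subtype.ext (Subsingleton.elim _ _))
    refine ⟨F, hlt, T', hT'n, hT's, ?_, hT'c, ?_⟩
    · by_contra hcon
      push Not at hcon
      exact hT'na hcon
    · rw [hT'card]
      refine lt_of_le_of_lt ?_ hcard
      rw [hn]
      exact Nat.pow_le_pow_left (by omega) κ

end Pool.Agent.Lib.MP_7ab245_nt.Solv
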