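import Mathlib
import Pool.Agent.Lib.MP_7ab245_nt.Solv.F.Base

/-! Module SF-Recip. Elementary properties of `recip`.
PROOFS. `aeval_inv`: `g ∣ g.reverse` and `aeval x g = 0` give `aeval x g.reverse = 0`, so
`aeval x⁻¹ g = 0` (`Polynomial.eval₂_reverse_eq_zero_iff` applied to `x⁻¹`, and `(x⁻¹)⁻¹ = x`).
`aeval_recip`: for `x ≠ 0`, `aeval x (recip h) = x ^ (natDegree h) * aeval (x + x⁻¹) h`, because
`(x ^ 2 + 1) ^ k * x ^ (m - k) = x ^ m * (x + x⁻¹) ^ k` (`Polynomial.aeval_eq_sum_range`).
`recip_monic`: for `h` monic of degree `m`, `recip h` is monic of degree `2 m`: the term `k` is of degree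
`2 k + m - k = m + k` with leading coefficient `h.coeff k`.
-/

set_option autoImplicit false

open Polynomial

namespace Pool.Agent.Lib.MP_7ab245_nt.Solv

theorem aeval_inv {Ω : Type} [Field Ω] [NumberField Ω] {g : ℤ[X]} (hr : g ∣ g.reverse) (x : Ω)
    (hx : aeval x g = 0) : aeval x⁻¹ g = 0 := by
  obtain ⟨q, hq⟩ := hr
  have h1 : aeval x g.reverse = 0 := by rw [hq, map_mul, hx, zero_mul]
  rcases eq_or_ne x 0 with rfl | hx0
  · rwa [inv_zero]
  rw [Polynomial.aeval_def] at h1 ⊢
  let _ := invertibleOfNonzero (inv_ne_zero hx0)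
  have h2 := (Polynomial.eval₂_reverse_eq_zero_iff (algebraMap ℤ Ω) x⁻¹ g).1
  rw [invOf_eq_inv, inv_inv] at h2
  exact h2 h1

theorem aeval_recip {Ω : Type} [Field Ω] [NumberField Ω] (h : ℤ[X]) (x : Ω) (hx : x ≠ 0) :
    aeval x (recip h) = x ^ h.natDegree * aeval (x + x⁻¹) h := by
  rw [recip, map_sum, Polynomial.aeval_eq_sum_range, Finset.mul_sum]
  refine Finset.sum_congr rfl fun k hk => ?_
  have hk' : k ≤ h.natDegree := by
    rw [Finset.mem_range] at hk
    omega
  have e1 : x ^ h.natDegree = x ^ k * x ^ (h.natDegree - k) := by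
    rw [← pow_add]
    congr 1
    omega
  have e2 : (x ^ 2 + 1) ^ k = x ^ k * (x + x⁻¹) ^ k := by
    rw [← mul_pow]
    congr 1
    field_simp
  simp only [map_mul, map_pow, map_add, map_one, aeval_X, aeval_C, zsmul_eq_mul]
  rw [e1, e2]
  simp only [algebraMap_int_eq, eq_intCast]
  ring

theorem recip_monic (h : ℤ[X]) (hm : h.Monic) :
    (recip h).Monic ∧ (recip h).natDegree = 2 * h.natDegree := by
  have hle : (recip h).natDegree ≤ 2 * h.natDegree := by
    rw [recip]
    refine Polynomial.natDegree_sum_le_of_forall_le _ _ fun k hk => ?_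
    have hk' : k ≤ h.natDegree := by
      rw [Finset.mem_range] at hk
      omega
    refine (natDegree_mul_le).trans ?_
    have h2 : (C (h.coeff k) * (X ^ 2 + 1) ^ k : ℤ[X]).natDegree ≤ 2 * k := by
      refine (natDegree_C_mul_le _ _).trans (natDegree_pow_le.trans ?_)
      have : (X ^ 2 + 1 : ℤ[X]).natDegree = 2 := by
        have := natDegree_X_pow_add_C (R := ℤ) (n := 2) (r := 1)
        simpa using this
      rw [this]
      omega
    have h3 : (X ^ (h.natDegree - k) : ℤ[X]).natDegree ≤ h.natDegree - k := natDegree_X_pow_le _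
    omega
  have hcoeff : (recip h).coeff (2 * h.natDegree) = 1 := by
    rw [recip, Polynomial.finsetSum_coeff, Finset.sum_range_succ, Finset.sum_eq_zero]
    · rw [zero_add, Nat.sub_self, pow_zero, mul_one, coeff_C_mul, hm.coeff_natDegree, one_mul]
      have h1 : ((X ^ 2 + 1 : ℤ[X]) ^ h.natDegree).Monic := by
        refine Polynomial.Monic.pow ?_ _
        have := monic_X_pow_add_C (R := ℤ) (1 : ℤ) (n := 2) (by norm_num)
        simpa using this
      have h2 : ((X ^ 2 + 1 : ℤ[X]) ^ h.natDegree).natDegree = 2 * h.natDegree := by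
        rw [natDegree_pow]
        have : (X ^ 2 + 1 : ℤ[X]).natDegree = 2 := by
          have := natDegree_X_pow_add_C (R := ℤ) (n := 2) (r := 1)
          simpa using this
        rw [this, mul_comm]
      rw [← h2]
      exact h1.coeff_natDegree
    · intro k hk
      rw [Finset.mem_range] at hk
      apply coeff_eq_zero_of_natDegree_lt
      refine lt_of_le_of_lt natDegree_mul_le ?_
      have h2 : (C (h.coeff k) * (X ^ 2 + 1) ^ k : ℤ[X]).natDegree ≤ 2 * k := by
        refine (natDegree_C_mul_le _ _).trans (natDegree_pow_le.trans ?_)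
        have : (X ^ 2 + 1 : ℤ[X]).natDegree = 2 := by
          have := natDegree_X_pow_add_C (R := ℤ) (n := 2) (r := 1)
          simpa using this
        rw [this]
        omega
      have h3 : (X ^ (h.natDegree - k) : ℤ[X]).natDegree ≤ h.natDegree - k := natDegree_X_pow_le _
      omega
  have hdeg : (recip h).natDegree = 2 * h.natDegree := by
    refine le_antisymm hle (le_natDegree_of_ne_zero ?_)
    rw [hcoeff]
    exact one_ne_zero
  refine ⟨?_, hdeg⟩
  rw [Monic, leadingCoeff, hdeg, hcoeff]

end Pool.Agent.Lib.MP_7ab245_nt.Solv
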