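import Mathlib

/-! Module SF-E1Count. Orbit counting. -/

set_option autoImplicit false

namespace Pool.Agent.Lib.MP_7ab245_nt.Solv

private theorem card_orbit_eq {G X : Type*} [Group G] [MulAction G X] (x : X) :
    Nat.card (Set.range fun t : G => t • x) = (MulAction.stabilizer G x).index := by
  rw [MulAction.index_stabilizer]
  rfl

theorem orbit_count {G X Y : Type*} [Group G] [Finite G] [MulAction G X] [MulAction G Y]
    (x : X) (b : Y) (H : Subgroup G) (h1 : ∀ t : G, t • x = x → t ∈ H)
    (h2 : ∀ t ∈ H, t • b = b) :
    Nat.card (Set.range fun t : H => (t : G) • x) * Nat.card (Set.range fun t : G => t • b) ≤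
      Nat.card (Set.range fun t : G => t • x) := by
  have hK : MulAction.stabilizer G x ≤ H := fun t ht => h1 t (MulAction.mem_stabilizer_iff.mp ht)
  have hH : H ≤ MulAction.stabilizer G b := fun t ht => MulAction.mem_stabilizer_iff.mpr (h2 t ht)
  have e1 : Nat.card (Set.range fun t : H => (t : G) • x) =
      (MulAction.stabilizer G x).relIndex H := by
    have h3 := card_orbit_eq (G := H) x
    have h4 : MulAction.stabilizer H x = (MulAction.stabilizer G x).subgroupOf H := by
      ext t
      rw [Subgroup.mem_subgroupOf, MulAction.mem_stabilizer_iff, MulAction.mem_stabilizer_iff]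
      rfl
    rw [h4] at h3
    exact h3
  have e2 : Nat.card (Set.range fun t : G => t • b) ≤ H.index := by
    rw [card_orbit_eq]
    exact Nat.le_of_dvd (Nat.pos_of_ne_zero Subgroup.index_ne_zero_of_finite)
      (Subgroup.index_dvd_of_le hH)
  rw [e1, card_orbit_eq x, ← Subgroup.relIndex_mul_index hK]
  exact Nat.mul_le_mul_left _ e2

end Pool.Agent.Lib.MP_7ab245_nt.Solv
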