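import Mathlib
import Pool.Agent.Lib.MP_7ab245_nt.Solv.F.Base

/-! Module SF-Orbit. Orbits of the Galois group and field degrees.
PROOFS. `exists_aut_of_root`: two roots of a monic irreducible `g ∈ ℤ[X]` in `Ω` have the same minimal
polynomial over `ℚ` (`g` is irreducible over `ℚ` by Gauss, `Polynomial.Monic.irreducible_iff_irreducible_map_fraction_map`
or `IsPrimitive.Int.irreducible_iff_irreducible_map_cast`), so they are conjugate under the Galois group
(`Normal.exists_algEquiv_of_root'`, `minpoly.exists_algEquiv_of_root`, or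
`IsConjRoot`, `isConjRoot_iff_exists_algEquiv`).
`card_range_eq_finrank`: `G = Ω ≃ₐ[ℚ] Ω` acts on `Fin r → Ω`; by orbit-stabiliser the range has
`[G : Stab x]` elements, `Stab x = fixingSubgroup (adjoin ℚ (range x))`
(`IntermediateField.adjoin_le_iff`-type argument: `s` fixes the field iff it fixes all `x i`), and
`IsGalois.card_fixingSubgroup_eq_finrank` with `finrank ℚ L * finrank L Ω = finrank ℚ Ω = Nat.card G`
(`IsGalois.card_aut_eq_finrank`). `card_orbit_eq_natDegree`: the case `r = 1` with
`IntermediateField.adjoin.finrank` and `minpoly ℚ x = g.map`, or: the orbit is the set of the roots of `g`,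
which has `natDegree g` elements because `g` splits and is separable. -/

set_option autoImplicit false

open Polynomial

namespace Pool.Agent.Lib.MP_7ab245_nt.Solv

theorem minpoly_eq_map (g : ℤ[X]) (hm : g.Monic) (hi : Irreducible g) {Ω : Type} [Field Ω]
    [NumberField Ω] (x : Ω) (hx : aeval x g = 0) : minpoly ℚ x = g.map (Int.castRingHom ℚ) := by
  have h1 : Irreducible (g.map (Int.castRingHom ℚ)) := by
    have := (Polynomial.Monic.irreducible_iff_irreducible_map_fraction_map (K := ℚ) hm).1 hi
    rwa [algebraMap_int_eq] at this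
  have h2 : aeval x (g.map (Int.castRingHom ℚ)) = 0 := by
    have := Polynomial.aeval_map_algebraMap ℚ x g
    rw [algebraMap_int_eq] at this
    rw [this, hx]
  exact (minpoly.eq_of_irreducible_of_monic h1 h2 (hm.map _)).symm

theorem exists_aut_of_root {Ω : Type} [Field Ω] [NumberField Ω] [IsGalois ℚ Ω] (g : ℤ[X])
    (hm : g.Monic) (hi : Irreducible g) (x y : Ω) (hx : aeval x g = 0) (hy : aeval y g = 0) :
    ∃ s : Ω ≃ₐ[ℚ] Ω, s x = y := by
  have h1 : IsConjRoot ℚ y x := by
    unfold IsConjRoot
    rw [minpoly_eq_map g hm hi x hx, minpoly_eq_map g hm hi y hy]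
  exact isConjRoot_iff_exists_algEquiv.1 h1

theorem aeval_aut {Ω : Type} [Field Ω] [NumberField Ω] (g : ℤ[X]) (s : Ω ≃ₐ[ℚ] Ω) (x : Ω) :
    aeval (s x) g = s (aeval x g) := by
  exact Polynomial.aeval_algHom_apply ((s : Ω →ₐ[ℚ] Ω).restrictScalars ℤ) x g

private theorem card_range_aux {Ω : Type} [Field Ω] [NumberField Ω] [IsGalois ℚ Ω] {r : ℕ}
    (x : Fin r → Ω) :
    Nat.card (Set.range fun (s : Ω ≃ₐ[ℚ] Ω) => fun i => s (x i)) =
      Module.finrank ℚ (IntermediateField.adjoin ℚ (Set.range x)) := by
  rw [IntermediateField.finrank_eq_fixingSubgroup_index]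
  have h1 : (IntermediateField.adjoin ℚ (Set.range x)).fixingSubgroup =
      MulAction.stabilizer (Ω ≃ₐ[ℚ] Ω) x := by
    ext s
    rw [IntermediateField.mem_fixingSubgroup_iff, MulAction.mem_stabilizer_iff]
    constructor
    · intro h
      funext i
      exact h (x i) (IntermediateField.subset_adjoin ℚ _ (Set.mem_range_self i))
    · intro h
      have h2 : IntermediateField.adjoin ℚ (Set.range x) ≤
          IntermediateField.fixedField (Subgroup.zpowers s) := by
        rw [IntermediateField.adjoin_le_iff]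
        rintro _ ⟨i, rfl⟩
        rw [SetLike.mem_coe, IntermediateField.mem_fixedField_iff]
        have h3 : s (x i) = x i := congrFun h i
        have h4 : s ∈ MulAction.stabilizer (Ω ≃ₐ[ℚ] Ω) (x i) := h3
        intro t ht
        exact (Subgroup.zpowers_le.2 h4) ht
      intro y hy
      exact (IntermediateField.mem_fixedField_iff _ y).1 (h2 hy) s (Subgroup.mem_zpowers s)
  rw [h1, MulAction.index_stabilizer]
  rfl

theorem card_range_eq_finrank {Ω : Type} [Field Ω] [NumberField Ω] [IsGalois ℚ Ω] {r : ℕ}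
    (x : Fin r → Ω) :
    Nat.card (Set.range fun (s : Ω ≃ₐ[ℚ] Ω) => fun i => s (x i)) =
      Module.finrank ℚ (IntermediateField.adjoin ℚ (Set.range x)) := by
  exact card_range_aux x

theorem card_orbit_eq_natDegree {Ω : Type} [Field Ω] [NumberField Ω] [IsGalois ℚ Ω] (g : ℤ[X])
    (hm : g.Monic) (hi : Irreducible g) (x : Ω) (hx : aeval x g = 0) :
    Nat.card (Set.range fun (s : Ω ≃ₐ[ℚ] Ω) => s x) = g.natDegree := by
  have h1 := card_range_aux (fun _ : Fin 1 => x)
  have h2 : Nat.card (Set.range fun (s : Ω ≃ₐ[ℚ] Ω) => s x) =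
      Nat.card (Set.range fun (s : Ω ≃ₐ[ℚ] Ω) => fun _ : Fin 1 => s x) := by
    have h3 : (Set.range fun (s : Ω ≃ₐ[ℚ] Ω) => fun _ : Fin 1 => s x) =
        (fun (z : Ω) => fun _ : Fin 1 => z) '' (Set.range fun (s : Ω ≃ₐ[ℚ] Ω) => s x) := by
      rw [← Set.range_comp]
      rfl
    rw [h3]
    refine (Nat.card_image_of_injective ?_ _).symm
    intro a b hab
    exact congrFun hab 0
  rw [h2, h1, Set.range_const, IntermediateField.adjoin.finrank (Algebra.IsIntegral.isIntegral x),
    minpoly_eq_map g hm hi x hx, hm.natDegree_map]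

end Pool.Agent.Lib.MP_7ab245_nt.Solv
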