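import Mathlib
import Pool.Agent.Lib.MP_7ab245_nt.Solv.F.Orbit

/-! Module SF-Height. The logarithm of the Mahler measure as an average over the Galois group.
PROOF. `g` splits in `Ω` (it has a root in the normal extension `Ω`) and is separable, so
`g.map ℂ = ∏ (X - C (ι y))` over the roots `y` of `g` in `Ω` (`Polynomial.roots_map`, `Splits`), all
simple. By `mahlerMeasure_eq_leadingCoeff_mul_prod_roots` (monic):
`log M(g) = ∑ y ∈ roots, log (max 1 ‖ι y‖) = ∑ y, log⁺ ‖ι y‖`. The map `s ↦ s x` from `G` to the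
roots is surjective (`exists_aut_of_root`) with all fibres of the same cardinality `card G / natDegree g`
(cosets of the stabiliser; `card_orbit_eq_natDegree`); so
`natDegree g * ∑ s, F (s x) = card G * ∑ y ∈ roots, F y` for every `F`. -/

set_option autoImplicit false

open Polynomial

namespace Pool.Agent.Lib.MP_7ab245_nt.Solv

private theorem alg_comp {Ω : Type} [Field Ω] [NumberField Ω] :
    (algebraMap ℚ Ω).comp (Int.castRingHom ℚ) = algebraMap ℤ Ω := RingHom.ext_int _ _

private theorem splits_of_root {Ω : Type} [Field Ω] [NumberField Ω] [IsGalois ℚ Ω]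
    (g : ℤ[X]) (hm : g.Monic) (hi : Irreducible g) (x : Ω) (hx : aeval x g = 0) :
    (g.map (algebraMap ℤ Ω)).Splits := by
  have h1 : minpoly ℚ x = g.map (Int.castRingHom ℚ) := minpoly_eq_map g hm hi x hx
  have h2 : ((minpoly ℚ x).map (algebraMap ℚ Ω)).Splits := Normal.splits inferInstance x
  rw [h1, Polynomial.map_map, alg_comp] at h2
  exact h2

private theorem nodup_of_root {Ω : Type} [Field Ω] [NumberField Ω] [IsGalois ℚ Ω]
    (g : ℤ[X]) (hm : g.Monic) (hi : Irreducible g) (x : Ω) (hx : aeval x g = 0) :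
    (g.map (algebraMap ℤ Ω)).roots.Nodup := by
  have h1 : minpoly ℚ x = g.map (Int.castRingHom ℚ) := minpoly_eq_map g hm hi x hx
  have h2 : (minpoly ℚ x).Separable := IsGalois.separable ℚ x
  have h3 : ((minpoly ℚ x).map (algebraMap ℚ Ω)).Separable := h2.map
  rw [h1, Polynomial.map_map, alg_comp] at h3
  exact nodup_roots h3

private theorem log_M_eq {Ω : Type} [Field Ω] [NumberField Ω] [IsGalois ℚ Ω] (ι : Ω →+* ℂ)
    (g : ℤ[X]) (hm : g.Monic) (hi : Irreducible g) (x : Ω) (hx : aeval x g = 0) :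
    Real.log (M g) = ((g.map (algebraMap ℤ Ω)).roots.map fun y => Real.posLog ‖ι y‖).sum := by
  have hcomp : g.map (Int.castRingHom ℂ) = (g.map (algebraMap ℤ Ω)).map ι := by
    rw [Polynomial.map_map]
    congr 1
    exact RingHom.ext_int _ _
  have hroots : (g.map (Int.castRingHom ℂ)).roots = (g.map (algebraMap ℤ Ω)).roots.map ι := by
    rw [hcomp]
    exact (splits_of_root g hm hi x hx).roots_map ι
  unfold M
  rw [← logMahlerMeasure_eq_log_MahlerMeasure,
    logMahlerMeasure_eq_log_leadingCoeff_add_sum_log_roots, hroots, Multiset.map_map,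
    (hm.map _).leadingCoeff]
  simp

private theorem sum_orbit {Ω : Type} [Field Ω] [NumberField Ω] [IsGalois ℚ Ω]
    (g : ℤ[X]) (hm : g.Monic) (hi : Irreducible g) (x : Ω) (hx : aeval x g = 0) (F : Ω → ℝ) :
    (g.natDegree : ℝ) * ∑ s : Ω ≃ₐ[ℚ] Ω, F (s x) =
      (Nat.card (Ω ≃ₐ[ℚ] Ω) : ℝ) * ((g.map (algebraMap ℤ Ω)).roots.map F).sum := by
  classical
  set R := (g.map (algebraMap ℤ Ω)).roots with hR
  have hnd : R.Nodup := nodup_of_root g hm hi x hx
  set S : Finset Ω := ⟨R, hnd⟩ with hS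
  have hmonic : (g.map (algebraMap ℤ Ω)).Monic := hm.map _
  have hmem : ∀ y, y ∈ S ↔ aeval y g = 0 := by
    intro y
    rw [hS, Finset.mem_mk, hR, mem_roots hmonic.ne_zero, IsRoot.def, eval_map_algebraMap]
  have hcardS : S.card = g.natDegree := by
    have h := (splits_of_root g hm hi x hx).natDegree_eq_card_roots
    rw [hm.natDegree_map] at h
    rw [h]
    rfl
  have hmaps : ∀ s : Ω ≃ₐ[ℚ] Ω, s x ∈ S := by
    intro s
    rw [hmem, aeval_aut, hx, map_zero]
  set c := (Finset.univ.filter fun s : Ω ≃ₐ[ℚ] Ω => s x = x).card with hc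
  have hfib : ∀ y ∈ S, (Finset.univ.filter fun s : Ω ≃ₐ[ℚ] Ω => s x = y).card = c := by
    intro y hy
    obtain ⟨t, ht⟩ := exists_aut_of_root g hm hi x y hx ((hmem y).1 hy)
    rw [hc]
    symm
    apply Finset.card_bij (fun s _ => t * s)
    · intro s hs
      simp only [Finset.mem_filter, Finset.mem_univ, true_and] at hs ⊢
      rw [AlgEquiv.mul_apply, hs, ht]
    · intro a _ b _ hab
      exact mul_left_cancel hab
    · intro s hs
      simp only [Finset.mem_filter, Finset.mem_univ, true_and] at hs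
      refine ⟨t⁻¹ * s, ?_, by simp⟩
      simp only [Finset.mem_filter, Finset.mem_univ, true_and]
      rw [AlgEquiv.mul_apply, hs, ← ht, ← AlgEquiv.mul_apply, inv_mul_cancel]
      rfl
  have hcard : Fintype.card (Ω ≃ₐ[ℚ] Ω) = g.natDegree * c := by
    have h := Finset.card_eq_sum_card_fiberwise (f := fun s : Ω ≃ₐ[ℚ] Ω => s x)
      (s := Finset.univ) (t := S) (fun s _ => hmaps s)
    rw [Finset.card_univ] at h
    rw [h, Finset.sum_congr rfl hfib, Finset.sum_const, hcardS, smul_eq_mul]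
  have hsum : ∑ s : Ω ≃ₐ[ℚ] Ω, F (s x) = c * ∑ y ∈ S, F y := by
    rw [← Finset.sum_fiberwise_of_maps_to (g := fun s : Ω ≃ₐ[ℚ] Ω => s x)
      (s := Finset.univ) (t := S) (fun s _ => hmaps s), Finset.mul_sum]
    apply Finset.sum_congr rfl
    intro y hy
    rw [← hfib y hy, ← nsmul_eq_mul, ← Finset.sum_const]
    apply Finset.sum_congr rfl
    intro s hs
    rw [(Finset.mem_filter.1 hs).2]
  have hRS : (R.map F).sum = ∑ y ∈ S, F y := rfl
  rw [hRS, hsum, Nat.card_eq_fintype_card, hcard]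
  push_cast
  ring

theorem height_formula {Ω : Type} [Field Ω] [NumberField Ω] [IsGalois ℚ Ω] (ι : Ω →+* ℂ)
    (g : ℤ[X]) (hm : g.Monic) (hi : Irreducible g) (x : Ω) (hx : aeval x g = 0) :
    (Nat.card (Ω ≃ₐ[ℚ] Ω) : ℝ) * Real.log (M g) =
      g.natDegree * ∑ s : Ω ≃ₐ[ℚ] Ω, Real.posLog ‖ι (s x)‖ := by
  rw [log_M_eq ι g hm hi x hx]
  exact (sum_orbit g hm hi x hx fun y => Real.posLog ‖ι y‖).symm

end Pool.Agent.Lib.MP_7ab245_nt.Solv
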