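import Mathlib
import Pool.Agent.Lib.MP_7ab245_nt.Solv.F.Base

/-! Module SF-Kron. Kronecker's theorem in `Ω`.
PROOF. Every ring homomorphism `φ : Ω →+* ℂ` is `ι ∘ s` for some `s` in the Galois group: there are
`finrank ℚ Ω` homomorphisms (`NumberField.Embeddings.card`) and the `ι ∘ s` are `card G = finrank`
different ones (or `AlgHom.restrictNormal`, `Algebra.IsAlgebraic...`). Then
`NumberField.Embeddings.pow_eq_one_of_norm_le_one` (used in `Mathlib/NumberTheory/MahlerMeasure.lean`)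
gives the first statement. In the second one `‖ι (s y)‖ = 1` for all `s`, because `log ‖ι (s y)‖ = 0` and
`ι (s y) ≠ 0` (`Real.log_eq_zero`-type: `Real.eq_one_of_pos_of_log_eq_zero`). -/

set_option autoImplicit false

open Polynomial

namespace Pool.Agent.Lib.MP_7ab245_nt.Solv

theorem exists_aut_comp {Ω : Type} [Field Ω] [NumberField Ω] [IsGalois ℚ Ω] (ι φ : Ω →+* ℂ) :
    ∃ s : Ω ≃ₐ[ℚ] Ω, ∀ y, φ y = ι (s y) := by
  classical
  have hinj : Function.Injective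
      (fun s : Ω ≃ₐ[ℚ] Ω => ι.comp ((s : Ω ≃+* Ω) : Ω →+* Ω)) := by
    intro s t h
    ext y
    have h1 := congrArg (fun f : Ω →+* ℂ => f y) h
    simp only [RingHom.comp_apply, RingHom.coe_coe] at h1
    exact ι.injective h1
  have hcard : Nat.card (Ω →+* ℂ) ≤ Nat.card (Ω ≃ₐ[ℚ] Ω) := by
    rw [IsGalois.card_aut_eq_finrank, Nat.card_eq_fintype_card, NumberField.Embeddings.card]
  have hbij := hinj.bijective_of_nat_card_le hcard
  obtain ⟨s, hs⟩ := hbij.2 φ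
  refine ⟨s, fun y => ?_⟩
  have h1 := congrArg (fun f : Ω →+* ℂ => f y) hs
  simp only [RingHom.comp_apply, RingHom.coe_coe] at h1
  exact h1.symm

theorem torsion_of_norm_le_one {Ω : Type} [Field Ω] [NumberField Ω] [IsGalois ℚ Ω]
    (ι : Ω →+* ℂ) (y : Ω) (hy0 : y ≠ 0) (hy : IsIntegral ℤ y)
    (h : ∀ s : Ω ≃ₐ[ℚ] Ω, ‖ι (s y)‖ ≤ 1) : ∃ k : ℕ, 0 < k ∧ y ^ k = 1 := by
  obtain ⟨k, hk, hk1⟩ := NumberField.Embeddings.pow_eq_one_of_norm_le_one Ω ℂ hy0 hy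
    (fun φ => by
      obtain ⟨s, hs⟩ := exists_aut_comp ι φ
      rw [hs y]
      exact h s)
  exact ⟨k, hk, hk1⟩

theorem torsion_of_lg_eq_zero {Ω : Type} [Field Ω] [NumberField Ω] [IsGalois ℚ Ω]
    (ι : Ω →+* ℂ) (y : Ω) (hy0 : y ≠ 0) (hy : IsIntegral ℤ y) (h : lg ι y = 0) :
    ∃ k : ℕ, 0 < k ∧ y ^ k = 1 := by
  refine torsion_of_norm_le_one ι y hy0 hy fun s => ?_
  have h1 : Real.log ‖ι (s y)‖ = 0 := congrFun h s
  have h2 : 0 < ‖ι (s y)‖ := by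
    rw [norm_pos_iff]
    exact (map_ne_zero ι).2 ((map_ne_zero s).2 hy0)
  exact (Real.eq_one_of_pos_of_log_eq_zero h2 h1).le

end Pool.Agent.Lib.MP_7ab245_nt.Solv
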