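import Mathlib
import Pool.Agent.Lib.MP_7ab245_nt.Solv.F.Base

/-! Module SF-Mul. Elementary properties of the Mahler measure of integer polynomials.
PROOFS. Mathlib: `Polynomial.mahlerMeasure_mul`, `Polynomial.one_le_mahlerMeasure_of_ne_zero`
(`Mathlib/NumberTheory/MahlerMeasure.lean`), `Polynomial.leadingCoeff_le_mahlerMeasure`,
`Polynomial.norm_coeff_le_choose_mul_mahlerMeasure` (with `n = 0`; or `n = 1` for the last one: the
coefficient of `X` of `recip (X - C a) = X ^ 2 - a X + 1` is `-a`, so `|a| ≤ 2 * M`), `M (X) = 1`.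
`M_map_neg`: `-f = C (-1) * f`. For `M_recip_X_sub_C`: if `|a| ≤ 2` then `X ^ 2 - a X + 1` is
`(X+1)^2, X^2+X+1, X^2+1, X^2-X+1, (X-1)^2`, of Mahler measure `1` (`cyclotomic_mahlerMeasure_eq_one`,
`cyclotomic_one, _two, _three, _four, _six`, or by `max 1 ‖root‖`); contradiction to `1 < M`; so
`3 ≤ |a| ≤ 2 * M`. -/

set_option autoImplicit false

open Polynomial

namespace Pool.Agent.Lib.MP_7ab245_nt.Solv

private theorem map_ne_zero' {f : ℤ[X]} (hf : f ≠ 0) : f.map (Int.castRingHom ℂ) ≠ 0 := by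
  rw [Ne, Polynomial.map_eq_zero_iff (RingHom.injective_int _)]
  exact hf

theorem M_mul (f g : ℤ[X]) : M (f * g) = M f * M g := by
  unfold M
  rw [Polynomial.map_mul, mahlerMeasure_mul]

theorem one_le_M {f : ℤ[X]} (hf : f ≠ 0) : 1 ≤ M f := one_le_mahlerMeasure_of_ne_zero hf

theorem M_C (a : ℤ) : M (C a) = |(a : ℝ)| := by
  unfold M
  rw [Polynomial.map_C, mahlerMeasure_const]
  simp

theorem M_neg (f : ℤ[X]) : M (-f) = M f := by
  have h : -f = C (-1) * f := by simp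
  rw [h, M_mul, M_C]
  simp

theorem ne_zero_of_one_lt_M {f : ℤ[X]} (hf : 1 < M f) : f ≠ 0 := by
  rintro rfl
  unfold M at hf
  rw [Polynomial.map_zero, mahlerMeasure_zero] at hf
  linarith

theorem M_X : M (X : ℤ[X]) = 1 := by
  unfold M
  rw [Polynomial.map_X]
  have h := mahlerMeasure_X_sub_C (0 : ℂ)
  simpa using h

theorem abs_leadingCoeff_le_M (f : ℤ[X]) : |(f.leadingCoeff : ℝ)| ≤ M f := by
  have h := leadingCoeff_le_mahlerMeasure (f.map (Int.castRingHom ℂ))
  rw [leadingCoeff_map_of_injective (RingHom.injective_int _)] at h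
  simpa [M] using h

theorem abs_coeff_zero_le_M (f : ℤ[X]) : |(f.coeff 0 : ℝ)| ≤ M f := by
  have h := norm_coeff_le_choose_mul_mahlerMeasure 0 (f.map (Int.castRingHom ℂ))
  simpa [M] using h

/-- a divisor of a nonzero polynomial has smaller Mahler measure -/
theorem M_le_of_dvd {f g : ℤ[X]} (hf : f ≠ 0) (h : g ∣ f) : M g ≤ M f := by
  obtain ⟨k, rfl⟩ := h
  have hk : k ≠ 0 := fun h0 => hf (by rw [h0, mul_zero])
  have hg : g ≠ 0 := fun h0 => hf (by rw [h0, zero_mul])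
  rw [M_mul]
  have h1 := one_le_M hk
  have h2 := one_le_M hg
  nlinarith

private theorem recip_X_sub_C (a : ℤ) : recip (X - C a) = X ^ 2 - C a * X + 1 := by
  unfold recip
  rw [natDegree_X_sub_C, Finset.sum_range_succ, Finset.sum_range_one]
  have h0 : (X - C a : ℤ[X]).coeff 0 = -a := by
    rw [coeff_sub, coeff_X_zero, coeff_C_zero, zero_sub]
  have h1 : (X - C a : ℤ[X]).coeff 1 = 1 := by
    rw [coeff_sub, coeff_X_one, coeff_C_of_ne_zero one_ne_zero, sub_zero]
  rw [h0, h1, C_neg, C_1]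
  simp only [pow_zero, pow_one, Nat.sub_zero, Nat.sub_self]
  ring

private theorem M_cyclotomic (n : ℕ) : M (cyclotomic n ℤ) = 1 :=
  cyclotomic_mahlerMeasure_eq_one (R := ℤ) n

private theorem M_small (a : ℤ) (ha : |a| ≤ 2) : M (X ^ 2 - C a * X + 1 : ℤ[X]) = 1 := by
  rw [abs_le] at ha
  obtain ⟨h1, h2⟩ := ha
  interval_cases a
  · have h : (X ^ 2 - C (-2) * X + 1 : ℤ[X]) = cyclotomic 2 ℤ * cyclotomic 2 ℤ := by
      rw [cyclotomic_two]
      simp only [C_neg]
      rw [show (C (2 : ℤ) : ℤ[X]) = 2 from rfl]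
      ring
    rw [h, M_mul, M_cyclotomic]
    norm_num
  · have h : (X ^ 2 - C (-1) * X + 1 : ℤ[X]) = cyclotomic 3 ℤ := by
      rw [cyclotomic_three]
      simp only [C_neg, C_1]
      ring
    rw [h, M_cyclotomic]
  · have h : (X ^ 2 - C 0 * X + 1 : ℤ[X]) = cyclotomic 4 ℤ := by
      have h4 := cyclotomic_prime_pow_eq_geom_sum (R := ℤ) (n := 1) Nat.prime_two
      norm_num [Finset.sum_range_succ] at h4
      rw [h4]
      simp only [C_0]
      ring
    rw [h, M_cyclotomic]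
  · have h : (X ^ 2 - C 1 * X + 1 : ℤ[X]) = cyclotomic 6 ℤ := by
      rw [cyclotomic_six]
      simp only [C_1]
      ring
    rw [h, M_cyclotomic]
  · have h : (X ^ 2 - C 2 * X + 1 : ℤ[X]) = cyclotomic 1 ℤ * cyclotomic 1 ℤ := by
      rw [cyclotomic_one]
      rw [show (C (2 : ℤ) : ℤ[X]) = 2 from rfl]
      ring
    rw [h, M_mul, M_cyclotomic]
    norm_num

theorem M_recip_X_sub_C (a : ℤ) (h : 1 < M (recip (X - C a))) : 3 / 2 ≤ M (recip (X - C a)) := by
  rw [recip_X_sub_C] at h ⊢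
  have ha : 2 < |a| := by
    by_contra hcon
    rw [not_lt] at hcon
    rw [M_small a hcon] at h
    exact lt_irrefl _ h
  have h3 : (3 : ℝ) ≤ |(a : ℝ)| := by
    have : (3 : ℤ) ≤ |a| := ha
    exact_mod_cast this
  have hdeg : (X ^ 2 - C a * X + 1 : ℤ[X]).natDegree = 2 := by
    compute_degree!
  have hc := norm_coeff_le_choose_mul_mahlerMeasure 1
    ((X ^ 2 - C a * X + 1 : ℤ[X]).map (Int.castRingHom ℂ))
  rw [natDegree_map_eq_of_injective (RingHom.injective_int _), hdeg, coeff_map] at hc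
  have hco : (X ^ 2 - C a * X + 1 : ℤ[X]).coeff 1 = -a := by
    rw [coeff_add, coeff_sub, coeff_X_pow, coeff_C_mul, coeff_X_one, coeff_one]
    norm_num
  rw [hco] at hc
  have h4 : |(a : ℝ)| ≤ 2 * M (X ^ 2 - C a * X + 1 : ℤ[X]) := by
    simpa [M] using hc
  linarith

end Pool.Agent.Lib.MP_7ab245_nt.Solv
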