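import Mathlib
import Pool.Agent.Lib.MP_7ab245_nt.Solv.F.Mul
import Pool.Agent.Lib.MP_7ab245_nt.Solv.F.Orbit
import Pool.Agent.Lib.MP_7ab245_nt.Solv.F.Height
import Pool.Agent.Lib.MP_7ab245_nt.Solv.F.Kron
import Pool.Agent.Lib.MP_7ab245_nt.Solv.F.E1Count

/-! Module SF-E1. Minimality of the degree: no two different conjugates of `x` have a ratio which is a
root of unity.

PROOF. Let `G` be the Galois group, `H` the subgroup of the `t ∈ G` with `(t x) ^ k = x ^ k` for some `k > 0`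
(closed under products: `(t u x) ^ (k l) = t ((u x) ^ k) ^ l = (t x) ^ (k l) = x ^ (k l)`), and
`Δ = {t x : t ∈ H}`, `d = #Δ`. Suppose `s x ≠ x` (`s ∈ H`); so `d ≥ 2`. Let `b = ∏ y ∈ Δ, y`.
(a) `t Δ = Δ` for `t ∈ H`, so `t b = b`; and `t x = x` implies `t ∈ H`. By `orbit_count` (module E1Count)
`d * card (orbit of b) ≤ card (orbit of x) = n`, `n = natDegree g` (`card_orbit_eq_natDegree`).
(b) `y = ζ x` with `ζ` a root of unity for `y ∈ Δ`, so `‖ι (t y)‖ = ‖ι (t x)‖` for all `t ∈ G` (from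
`(t y) ^ k = (t x) ^ k`), `‖ι (t b)‖ = ‖ι (t x)‖ ^ d`, `∑ t, log⁺ ‖ι (t b)‖ = d * ∑ t, log⁺ ‖ι (t x)‖`.
(c) `b` is integral over `ℤ`; let `g_b = minpoly ℤ b`, monic and irreducible, with root `b` in the normal
field `Ω`, so it splits in `Ω`; `deg g_b = card (orbit of b)` (`card_orbit_eq_natDegree`). By
`height_formula` for `g_b` and `g`:
`card G * log M(g_b) = deg g_b * d * ∑ t, log⁺ ‖ι (t x)‖ ≤ n * ∑ t, log⁺ ‖ι (t x)‖ = card G * log M(g)`. So
`M(g_b) ≤ M(g) ≤ B`. And `M(g_b) > 1`: otherwise the sum `∑ t, log⁺ ‖ι (t b)‖` is zero, so is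
`∑ t, log⁺ ‖ι (t x)‖` and `log M(g) = 0`, contradiction to `1 < M g`.
(d) Minimality: `n ≤ deg g_b ≤ n / d`, so `d ≤ 1`. Contradiction.
(An embedding `ι : Ω →+* ℂ` exists.) -/

set_option autoImplicit false

open Polynomial

namespace Pool.Agent.Lib.MP_7ab245_nt.Solv

private theorem E1_alg_comp {Ω : Type} [Field Ω] [NumberField Ω] :
    (algebraMap ℚ Ω).comp (Int.castRingHom ℚ) = algebraMap ℤ Ω := RingHom.ext_int _ _

private theorem E1_splits {Ω : Type} [Field Ω] [NumberField Ω] [IsGalois ℚ Ω]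
    (g : ℤ[X]) (hm : g.Monic) (hi : Irreducible g) (x : Ω) (hx : aeval x g = 0) :
    (g.map (algebraMap ℤ Ω)).Splits := by
  have h1 : minpoly ℚ x = g.map (Int.castRingHom ℚ) := minpoly_eq_map g hm hi x hx
  have h2 : ((minpoly ℚ x).map (algebraMap ℚ Ω)).Splits := Normal.splits inferInstance x
  rw [h1, Polynomial.map_map, E1_alg_comp] at h2
  exact h2

/-- the automorphisms which change `x` by a root of unity -/
private def E1H {Ω : Type} [Field Ω] [NumberField Ω] (x : Ω) : Subgroup (Ω ≃ₐ[ℚ] Ω) where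
  carrier := {t | ∃ k : ℕ, 0 < k ∧ (t x) ^ k = x ^ k}
  one_mem' := ⟨1, one_pos, rfl⟩
  mul_mem' := by
    rintro t u ⟨k, hk, hk'⟩ ⟨l, hl, hl'⟩
    refine ⟨k * l, Nat.mul_pos hk hl, ?_⟩
    have e1 : (t * u) x = t (u x) := rfl
    have e2 : (t (u x)) ^ l = (t x) ^ l := by rw [← map_pow, hl', map_pow]
    rw [e1, mul_comm k l, pow_mul, e2, ← pow_mul, mul_comm l k, pow_mul, hk', pow_mul]
  inv_mem' := by
    rintro t ⟨k, hk, hk'⟩
    refine ⟨k, hk, ?_⟩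
    have e1 : t ((t⁻¹) x) = x := AlgEquiv.apply_symm_apply t x
    apply t.injective
    rw [map_pow, e1, map_pow, hk']

private theorem E1_contra {Ω : Type} [Field Ω] [NumberField Ω] [IsGalois ℚ Ω] {B : ℝ} {g : ℤ[X]}
    (hg : MinPoly Ω B g) (x : Ω) (hx : aeval x g = 0) (s : Ω ≃ₐ[ℚ] Ω) (k : ℕ) (hk : 0 < k)
    (h : (s x) ^ k = x ^ k) (hne : s x ≠ x) : False := by
  classical
  obtain ⟨ι⟩ : Nonempty (Ω →+* ℂ) := inferInstance
  set Δ : Set Ω := Set.range fun t : E1H x => (t : Ω ≃ₐ[ℚ] Ω) • x with hΔ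
  have hΔfin : Δ.Finite := Set.finite_range _
  set D : Finset Ω := hΔfin.toFinset with hD
  have hmem : ∀ y, y ∈ D ↔ ∃ t ∈ E1H x, t x = y := by
    intro y
    rw [hD, Set.Finite.mem_toFinset, hΔ]
    constructor
    · rintro ⟨t, rfl⟩
      exact ⟨t, t.2, rfl⟩
    · rintro ⟨t, ht, rfl⟩
      exact ⟨⟨t, ht⟩, rfl⟩
  have hcardD : Nat.card Δ = D.card := by
    rw [Nat.card_coe_set_eq, Set.ncard_eq_toFinset_card _ hΔfin]
  have hd2 : 2 ≤ D.card := by
    have h1 : x ∈ D := (hmem x).2 ⟨1, (E1H x).one_mem, rfl⟩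
    have h2 : s x ∈ D := (hmem _).2 ⟨s, ⟨k, hk, h⟩, rfl⟩
    exact Finset.one_lt_card.2 ⟨x, h1, s x, h2, fun h3 => hne h3.symm⟩
  set b : Ω := ∏ y ∈ D, y with hb
  -- (a)
  have hbfix : ∀ t ∈ E1H x, t • b = b := by
    intro t ht
    change t b = b
    rw [hb, map_prod]
    refine Finset.prod_bij (fun y _ => t y) ?_ ?_ ?_ ?_
    · intro y hy
      obtain ⟨u, hu, rfl⟩ := (hmem y).1 hy
      exact (hmem _).2 ⟨t * u, (E1H x).mul_mem ht hu, rfl⟩
    · intro y _ z _ hyz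
      exact t.injective hyz
    · intro y hy
      obtain ⟨u, hu, rfl⟩ := (hmem y).1 hy
      refine ⟨(t⁻¹ * u) x, (hmem _).2 ⟨t⁻¹ * u, (E1H x).mul_mem ((E1H x).inv_mem ht) hu, rfl⟩, ?_⟩
      exact AlgEquiv.apply_symm_apply t (u x)
    · intro y _; rfl
  have hcount := orbit_count (G := Ω ≃ₐ[ℚ] Ω) x b (E1H x) (fun t ht => ⟨1, one_pos, by
    have : t x = x := ht
    rw [this]⟩) hbfix
  rw [← hΔ, hcardD] at hcount
  have hox : Nat.card (Set.range fun t : Ω ≃ₐ[ℚ] Ω => t • x) = g.natDegree :=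
    card_orbit_eq_natDegree g hg.monic hg.irr x hx
  rw [hox] at hcount
  -- (b)
  have hnorm : ∀ (t : Ω ≃ₐ[ℚ] Ω), ∀ y ∈ D, ‖ι (t y)‖ = ‖ι (t x)‖ := by
    intro t y hy
    obtain ⟨u, ⟨l, hl, hl'⟩, rfl⟩ := (hmem y).1 hy
    have h1 : (ι (t (u x))) ^ l = (ι (t x)) ^ l := by
      rw [← map_pow, ← map_pow, hl', map_pow, map_pow]
    have h2 : ‖ι (t (u x))‖ ^ l = ‖ι (t x)‖ ^ l := by
      rw [← norm_pow, ← norm_pow, h1]
    exact (pow_left_inj₀ (norm_nonneg _) (norm_nonneg _) hl.ne').1 h2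
  have hnb : ∀ t : Ω ≃ₐ[ℚ] Ω, ‖ι (t b)‖ = ‖ι (t x)‖ ^ D.card := by
    intro t
    rw [hb, map_prod, map_prod, norm_prod, Finset.prod_congr rfl (hnorm t), Finset.prod_const]
  have hsum : ∑ t : Ω ≃ₐ[ℚ] Ω, Real.posLog ‖ι (t b)‖ =
      D.card * ∑ t : Ω ≃ₐ[ℚ] Ω, Real.posLog ‖ι (t x)‖ := by
    rw [Finset.mul_sum]
    refine Finset.sum_congr rfl fun t _ => ?_
    rw [hnb, Real.posLog_pow]
  -- (c)
  have hxint : ∀ y ∈ D, IsIntegral ℤ y := by
    intro y hy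
    obtain ⟨u, -, rfl⟩ := (hmem y).1 hy
    refine ⟨g, hg.monic, ?_⟩
    have := aeval_aut g u x
    rw [hx, map_zero] at this
    exact this
  have hbint : IsIntegral ℤ b := IsIntegral.prod _ hxint
  set gb := minpoly ℤ b with hgb
  have hgbm : gb.Monic := minpoly.monic hbint
  have hgbi : Irreducible gb := minpoly.irreducible hbint
  have hgb0 : aeval b gb = 0 := minpoly.aeval ℤ b
  have hob : Nat.card (Set.range fun t : Ω ≃ₐ[ℚ] Ω => t • b) = gb.natDegree :=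
    card_orbit_eq_natDegree gb hgbm hgbi b hgb0
  rw [hob] at hcount
  have hf1 := height_formula ι g hg.monic hg.irr x hx
  have hf2 := height_formula ι gb hgbm hgbi b hgb0
  rw [hsum] at hf2
  set S := ∑ t : Ω ≃ₐ[ℚ] Ω, Real.posLog ‖ι (t x)‖ with hS
  have hG : (0 : ℝ) < Nat.card (Ω ≃ₐ[ℚ] Ω) := by exact_mod_cast Nat.card_pos
  have hS0 : 0 ≤ S := Finset.sum_nonneg fun t _ => Real.posLog_nonneg
  have hMg : 0 < Real.log (M g) := Real.log_pos hg.one_lt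
  have hSpos : 0 < S := by
    rcases hS0.lt_or_eq with h1 | h1
    · exact h1
    · exfalso
      rw [← h1, mul_zero] at hf1
      exact (mul_pos hG hMg).ne' hf1
  have hgbpos : 0 < gb.natDegree := by
    rw [← hob]
    have : Nonempty (Set.range fun t : Ω ≃ₐ[ℚ] Ω => t • b) := ⟨⟨_, ⟨1, rfl⟩⟩⟩
    have : Finite (Set.range fun t : Ω ≃ₐ[ℚ] Ω => t • b) := (Set.finite_range _).to_subtype
    exact Nat.card_pos
  have hDpos : (0 : ℝ) < D.card := by exact_mod_cast (by omega : 0 < D.card)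
  have hgbpos' : (0 : ℝ) < gb.natDegree := by exact_mod_cast hgbpos
  have hgb1 : 1 ≤ M gb := one_le_M hgbm.ne_zero
  have hlogpos : 0 < Real.log (M gb) := by
    have h1 : 0 < (Nat.card (Ω ≃ₐ[ℚ] Ω) : ℝ) * Real.log (M gb) := by
      rw [hf2]
      exact mul_pos hgbpos' (mul_pos hDpos hSpos)
    exact (mul_pos_iff_of_pos_left hG).1 h1
  have hlt : 1 < M gb := by
    rcases hgb1.lt_or_eq with h1 | h1
    · exact h1
    · rw [← h1, Real.log_one] at hlogpos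
      exact absurd hlogpos (lt_irrefl _)
  have hcount' : (D.card : ℝ) * gb.natDegree ≤ g.natDegree := by exact_mod_cast hcount
  have hle : M gb ≤ M g := by
    have h1 : (Nat.card (Ω ≃ₐ[ℚ] Ω) : ℝ) * Real.log (M gb) ≤
        (Nat.card (Ω ≃ₐ[ℚ] Ω) : ℝ) * Real.log (M g) := by
      rw [hf1, hf2]
      calc (gb.natDegree : ℝ) * (D.card * S) = (D.card * gb.natDegree) * S := by ring
        _ ≤ g.natDegree * S := mul_le_mul_of_nonneg_right hcount' hS0
    have h2 := le_of_mul_le_mul_left h1 hG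
    exact (Real.log_le_log_iff (by linarith) (by linarith [hg.one_lt])).1 h2
  have hmin := hg.min gb hgbm hgbi (E1_splits gb hgbm hgbi b hgb0) hlt (hle.trans hg.le)
  nlinarith

theorem E1 {Ω : Type} [Field Ω] [NumberField Ω] [IsGalois ℚ Ω] {B : ℝ} {g : ℤ[X]}
    (hg : MinPoly Ω B g) (x : Ω) (hx : aeval x g = 0) (s : Ω ≃ₐ[ℚ] Ω) (k : ℕ) (hk : 0 < k)
    (h : (s x) ^ k = x ^ k) : s x = x := by
  by_contra hne
  exact E1_contra hg x hx s k hk h hne

end Pool.Agent.Lib.MP_7ab245_nt.Solv
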