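import Mathlib
import Pool.Agent.Lib.MP_7ab245_nt.Solv.F.Mul

/-! Module SF-ExistsMin. Existence of the polynomial of minimal degree.
PROOF. `f ≠ 0`, and `|leadingCoeff f| ≤ M f < 2`, so `leadingCoeff f = ±1`. Some irreducible factor `g₀`
of `f` has `M g₀ > 1`: induct over the factorisation of `f` in the UFD `ℤ[X]`
(`WfDvdMonoid.induction_on_irreducible` or `UniqueFactorizationMonoid.induction_on_prime`; units of `ℤ[X]`
are `±1`, of Mahler measure 1; `M_mul`): if all irreducible divisors had `M ≤ 1` then `M f ≤ 1`. The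
leading coefficient of `g₀` divides `±1`, so `g₀` or `-g₀` is monic; it splits in `Ω` because it divides
`f` (`Polynomial.Splits.of_dvd`, `map_dvd`), and `M g₀ ≤ M f` (`M_le_of_dvd`). Take `g` of minimal degree
(`Nat.find` or `WellFounded.min`) among the monic irreducible polynomials which split in `Ω` with
`1 < M g ≤ M f`. -/

set_option autoImplicit false

open Polynomial

namespace Pool.Agent.Lib.MP_7ab245_nt.Solv

theorem exists_irreducible_factor (f : ℤ[X]) (h1 : 1 < M f) :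
    ∃ g : ℤ[X], Irreducible g ∧ g ∣ f ∧ 1 < M g := by
  revert h1
  refine WfDvdMonoid.induction_on_irreducible
    (motive := fun f : ℤ[X] => 1 < M f → ∃ g : ℤ[X], Irreducible g ∧ g ∣ f ∧ 1 < M g) f ?_ ?_ ?_
  · intro h
    exact absurd rfl (ne_zero_of_one_lt_M h)
  · intro u hu h
    obtain ⟨r, hr, rfl⟩ := Polynomial.isUnit_iff.1 hu
    rw [M_C] at h
    rcases Int.isUnit_iff.1 hr with rfl | rfl <;> simp at h
  · intro a i ha hi ih h
    rw [M_mul] at h
    by_cases h2 : 1 < M i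
    · exact ⟨i, hi, dvd_mul_right _ _, h2⟩
    · have h3 : 1 ≤ M a := one_le_M ha
      have h4 : 1 < M a := by nlinarith [not_lt.1 h2]
      obtain ⟨g, hg1, hg2, hg3⟩ := ih h4
      exact ⟨g, hg1, dvd_mul_of_dvd_right hg2 _, hg3⟩

private theorem abs_int_eq_one {a : ℤ} (h0 : a ≠ 0) (h : |(a : ℝ)| < 2) : |a| = 1 := by
  have h1 : |a| < 2 := by exact_mod_cast h
  have h2 : 0 < |a| := abs_pos.2 h0
  omega

theorem exists_minPoly (Ω : Type) [Field Ω] [NumberField Ω] (f : ℤ[X]) (h1 : 1 < M f)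
    (h2 : M f < 2) (hs : (f.map (algebraMap ℤ Ω)).Splits) : ∃ g : ℤ[X], MinPoly Ω (M f) g := by
  classical
  have hf0 : f ≠ 0 := ne_zero_of_one_lt_M h1
  have hfm : f.map (algebraMap ℤ Ω) ≠ 0 := by
    rw [Ne, Polynomial.map_eq_zero_iff (FaithfulSMul.algebraMap_injective ℤ Ω)]
    exact hf0
  have hlc : |f.leadingCoeff| = 1 :=
    abs_int_eq_one (leadingCoeff_ne_zero.2 hf0) (lt_of_le_of_lt (abs_leadingCoeff_le_M f) h2)
  obtain ⟨g₀, hg1, hg2, hg3⟩ := exists_irreducible_factor f h1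
  have hg4 : M g₀ ≤ M f := M_le_of_dvd hf0 hg2
  have hg5 : (g₀.map (algebraMap ℤ Ω)).Splits :=
    hs.of_dvd hfm (Polynomial.map_dvd _ hg2)
  -- a monic version
  have key : ∃ g : ℤ[X], g.Monic ∧ Irreducible g ∧ (g.map (algebraMap ℤ Ω)).Splits ∧
      1 < M g ∧ M g ≤ M f := by
    obtain ⟨c, hc⟩ := hg2
    have hl : g₀.leadingCoeff ∣ f.leadingCoeff := by
      rw [hc, leadingCoeff_mul]
      exact dvd_mul_right _ _
    have hu : IsUnit g₀.leadingCoeff :=
      isUnit_of_dvd_unit hl (Int.isUnit_iff_abs_eq.2 hlc)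
    rcases Int.isUnit_iff.1 hu with h | h
    · exact ⟨g₀, h, hg1, hg5, hg3, hg4⟩
    · refine ⟨-g₀, ?_, ?_, ?_, ?_, ?_⟩
      · rw [Monic, leadingCoeff_neg, h, neg_neg]
      · exact (Associated.irreducible_iff (Associated.neg_right (Associated.refl g₀))).1 hg1
      · rw [Polynomial.map_neg]
        exact hg5.neg
      · rw [M_neg]; exact hg3
      · rw [M_neg]; exact hg4
  have hex : ∃ n : ℕ, ∃ g : ℤ[X], g.natDegree = n ∧ g.Monic ∧ Irreducible g ∧
      (g.map (algebraMap ℤ Ω)).Splits ∧ 1 < M g ∧ M g ≤ M f := by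
    obtain ⟨g, hg⟩ := key
    exact ⟨g.natDegree, g, rfl, hg⟩
  obtain ⟨g, hdeg, hm, hi, hsp, hl, hle⟩ := Nat.find_spec hex
  refine ⟨g, hm, hi, hsp, hl, hle, ?_⟩
  intro g' hm' hi' hs' hl' hle'
  rw [hdeg]
  exact Nat.find_min' hex ⟨g', rfl, hm', hi', hs', hl', hle'⟩

/-- the constant coefficient of `g` is `±1` -/
theorem MinPoly.abs_coeff_zero {Ω : Type} [Field Ω] [NumberField Ω] {B : ℝ} {g : ℤ[X]}
    (hg : MinPoly Ω B g) (hB : B < 2) : |g.coeff 0| = 1 := by
  refine abs_int_eq_one ?_ (lt_of_le_of_lt (abs_coeff_zero_le_M g) (lt_of_le_of_lt hg.le hB))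
  intro h0
  -- `X ∣ g`, so `g` is associated to `X`, and `M g = 1`
  have hX : (X : ℤ[X]) ∣ g := X_dvd_iff.2 h0
  have hassoc : Associated (X : ℤ[X]) g :=
    Irreducible.associated_of_dvd irreducible_X hg.irr hX
  have hle : M g ≤ M (X : ℤ[X]) := M_le_of_dvd X_ne_zero hassoc.symm.dvd
  rw [M_X] at hle
  exact absurd hg.one_lt (not_lt.2 hle)

end Pool.Agent.Lib.MP_7ab245_nt.Solv
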