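import Mathlib
import Pool.Agent.Lib.MP_7ab245_nt.Solv.F.Base

/-! Module SF-RepFacts. Properties of the logarithmic embedding.
PROOFS. `rep_lg`: both sides at `s` are `log ‖ι ((s * t) y)‖ = log ‖ι (s (t y))‖`. `lg_mul` etc.:
`Real.log_mul`, `map_ne_zero`, `Real.log_inv`, `norm_inv`. `mulInd_of_linearIndependent`: if
`mono x 1 a = ∏ i, x i ^ (1 * a i) = 1` then `0 = lg ι 1 = ∑ i, (a i : ℚ) • lg ι (x i)`, so all
`(a i : ℚ) = 0` (`Fintype.linearIndependent_iff`). -/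

set_option autoImplicit false

open Polynomial

namespace Pool.Agent.Lib.MP_7ab245_nt.Solv

variable {Ω : Type} [Field Ω] [NumberField Ω] (ι : Ω →+* ℂ)

theorem rep_lg (t : Ω ≃ₐ[ℚ] Ω) (y : Ω) : rep (Ω ≃ₐ[ℚ] Ω) t (lg ι y) = lg ι (t y) := by
  ext s
  rw [rep_apply]
  rfl

theorem lg_one : lg ι (1 : Ω) = 0 := by
  ext s
  simp [lg]

theorem lg_mul (y z : Ω) (hy : y ≠ 0) (hz : z ≠ 0) : lg ι (y * z) = lg ι y + lg ι z := by
  ext s
  have h1 : ‖ι (s y)‖ ≠ 0 := by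
    rw [norm_ne_zero_iff]
    exact (map_ne_zero ι).2 ((map_ne_zero s).2 hy)
  have h2 : ‖ι (s z)‖ ≠ 0 := by
    rw [norm_ne_zero_iff]
    exact (map_ne_zero ι).2 ((map_ne_zero s).2 hz)
  simp only [lg, Pi.add_apply, map_mul, norm_mul]
  exact Real.log_mul h1 h2

theorem lg_inv (y : Ω) : lg ι y⁻¹ = -lg ι y := by
  ext s
  simp only [lg, Pi.neg_apply, map_inv₀, norm_inv, Real.log_inv]

theorem lg_pow (y : Ω) (k : ℕ) : lg ι (y ^ k) = (k : ℚ) • lg ι y := by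
  ext s
  simp only [lg, Pi.smul_apply, map_pow, norm_pow, Real.log_pow, Rat.smul_def, Rat.cast_natCast]

theorem lg_zpow (y : Ω) (k : ℤ) : lg ι (y ^ k) = (k : ℚ) • lg ι y := by
  ext s
  simp only [lg, Pi.smul_apply, map_zpow₀, norm_zpow, Real.log_zpow, Rat.smul_def, Rat.cast_intCast]

theorem lg_prod {r : ℕ} (y : Fin r → Ω) (hy : ∀ i, y i ≠ 0) :
    lg ι (∏ i, y i) = ∑ i, lg ι (y i) := by
  ext s
  rw [Finset.sum_apply]
  simp only [lg, map_prod, norm_prod]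
  refine Real.log_prod fun i _ => ?_
  rw [norm_ne_zero_iff]
  exact (map_ne_zero ι).2 ((map_ne_zero s).2 (hy i))

theorem mulInd_of_linearIndependent {r : ℕ} (x : Fin r → Ω) (hx : ∀ i, x i ≠ 0)
    (h : LinearIndependent ℚ (fun i => lg ι (x i))) : MulInd x := by
  intro a ha
  rw [Fintype.linearIndependent_iff] at h
  have h1 : lg ι (mono x 1 a) = ∑ i, (a i : ℚ) • lg ι (x i) := by
    rw [mono, lg_prod ι _ fun i => zpow_ne_zero _ (hx i)]
    refine Finset.sum_congr rfl fun i _ => ?_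
    rw [lg_zpow]
    congr 1
    push_cast
    ring
  rw [ha, lg_one] at h1
  ext i
  have h2 := h (fun i => (a i : ℚ)) h1.symm i
  exact_mod_cast h2

/-- `lg` vanishes at roots of unity -/
theorem lg_eq_zero_of_pow_eq_one (y : Ω) (k : ℕ) (hk : 0 < k) (h : y ^ k = 1) : lg ι y = 0 := by
  have h1 : (k : ℚ) • lg ι y = 0 := by rw [← lg_pow, h, lg_one]
  have hk' : (k : ℚ) ≠ 0 := by exact_mod_cast hk.ne'
  exact (smul_eq_zero.1 h1).resolve_left hk'

end Pool.Agent.Lib.MP_7ab245_nt.Solv
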