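import Mathlib
import Pool.Agent.Lib.MP_7ab245_nt.Solv.F.ExistsMin
import Pool.Agent.Lib.MP_7ab245_nt.Solv.F.RepFacts
import Pool.Agent.Lib.MP_7ab245_nt.Solv.F.E1

/-! Module SF-Stab. The stabiliser of `lg ι x` is the stabiliser of `x`.
PROOFS. A root `x` of `g` is not zero and `x⁻¹` is integral over `ℤ`, because `g.coeff 0 = ±1`
(`MinPoly.abs_coeff_zero`): `x⁻¹` is a root of the reverse polynomial, which is monic up to sign; or
`x * (g.divX.eval x) = -g.coeff 0`. `lg_ne_zero`: if `lg ι x = 0` then `x ^ k = 1`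
(`torsion_of_lg_eq_zero`), all `‖ι (s x)‖ = 1` and `log M(g) = 0` by `height_formula`, or
`M(g) = 1` since `g` divides `X ^ k - 1`; contradiction. `eq_of_lg_eq`: `y = s x`
(`exists_aut_of_root`), `lg ι (y * x⁻¹) = 0`, `y * x⁻¹` is integral, so `y ^ k = x ^ k` for some `k > 0`, and
`E1` gives `y = x`. `eq_inv_of_lg_eq_neg`: if also `x⁻¹` is a root of `g`, apply `eq_of_lg_eq` to `y`, `x⁻¹`. -/

set_option autoImplicit false

open Polynomial

namespace Pool.Agent.Lib.MP_7ab245_nt.Solv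

variable {Ω : Type} [Field Ω] [NumberField Ω] {B : ℝ} {g : ℤ[X]}

theorem root_ne_zero (hg : MinPoly Ω B g) (hB : B < 2) (x : Ω) (hx : aeval x g = 0) : x ≠ 0 := by
  rintro rfl
  have h1 := Polynomial.coeff_zero_eq_aeval_zero' (A := Ω) g
  rw [hx] at h1
  have h2 : g.coeff 0 = 0 := by
    rw [algebraMap_int_eq, eq_intCast] at h1
    exact_mod_cast h1
  have h3 := hg.abs_coeff_zero hB
  rw [h2] at h3
  simp at h3

theorem isIntegral_inv_root (hg : MinPoly Ω B g) (hB : B < 2) (x : Ω) (hx : aeval x g = 0) :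
    IsIntegral ℤ x⁻¹ := by
  have hx0 := root_ne_zero hg hB x hx
  have hint : IsIntegral ℤ x := ⟨g, hg.monic, by rw [← Polynomial.aeval_def]; exact hx⟩
  have h1 : IsIntegral ℤ (aeval x g.divX) := by
    have h2 : Algebra.adjoin ℤ {x} ≤ integralClosure ℤ Ω := by
      rw [Algebra.adjoin_le_iff, Set.singleton_subset_iff]
      exact hint
    exact h2 (Polynomial.aeval_mem_adjoin_singleton ℤ x)
  have h3 : aeval x g.divX * x + (g.coeff 0 : Ω) = 0 := by
    have h4 := congrArg (aeval x) (Polynomial.divX_mul_X_add g)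
    rw [hx, map_add, map_mul, Polynomial.aeval_X, Polynomial.aeval_C, algebraMap_int_eq,
      eq_intCast] at h4
    exact h4
  have h5 : g.coeff 0 = 1 ∨ g.coeff 0 = -1 := by
    have h6 := hg.abs_coeff_zero hB
    exact eq_or_eq_neg_of_abs_eq h6
  rcases h5 with h5 | h5
  · rw [h5, Int.cast_one] at h3
    have h7 : x⁻¹ = -(aeval x g.divX) := by
      apply inv_eq_of_mul_eq_one_right
      linear_combination -h3
    rw [h7]
    exact h1.neg
  · rw [h5, Int.cast_neg, Int.cast_one] at h3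
    have h7 : x⁻¹ = aeval x g.divX := by
      apply inv_eq_of_mul_eq_one_right
      linear_combination h3
    rw [h7]
    exact h1

variable [IsGalois ℚ Ω] (ι : Ω →+* ℂ)

theorem lg_root_ne_zero (hg : MinPoly Ω B g) (hB : B < 2) (x : Ω) (hx : aeval x g = 0) :
    lg ι x ≠ 0 := by
  intro h
  have h1 := height_formula ι g hg.monic hg.irr x hx
  have h2 : ∀ s : Ω ≃ₐ[ℚ] Ω, Real.posLog ‖ι (s x)‖ = 0 := by
    intro s
    have h3 : Real.log ‖ι (s x)‖ = 0 := congrFun h s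
    rw [Real.posLog, h3, max_self]
  rw [Finset.sum_eq_zero (fun s _ => h2 s), mul_zero] at h1
  have h4 : 0 < Real.log (M g) := Real.log_pos hg.one_lt
  have h5 : (0 : ℝ) < (Nat.card (Ω ≃ₐ[ℚ] Ω) : ℝ) := by
    exact_mod_cast Nat.card_pos
  have h6 := mul_pos h5 h4
  linarith

theorem eq_of_lg_eq (hg : MinPoly Ω B g) (hB : B < 2) (x y : Ω) (hx : aeval x g = 0)
    (hy : aeval y g = 0) (h : lg ι y = lg ι x) : y = x := by
  have hx0 := root_ne_zero hg hB x hx
  have hy0 := root_ne_zero hg hB y hy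
  have hyint : IsIntegral ℤ y := ⟨g, hg.monic, by rw [← Polynomial.aeval_def]; exact hy⟩
  have hxi := isIntegral_inv_root hg hB x hx
  obtain ⟨s, hs⟩ := exists_aut_of_root g hg.monic hg.irr x y hx hy
  have h1 : lg ι (y * x⁻¹) = 0 := by
    rw [lg_mul ι y x⁻¹ hy0 (inv_ne_zero hx0), lg_inv, h, add_neg_cancel]
  obtain ⟨k, hk, hk1⟩ := torsion_of_lg_eq_zero ι (y * x⁻¹)
    (mul_ne_zero hy0 (inv_ne_zero hx0)) (hyint.mul hxi) h1
  rw [mul_pow, inv_pow, mul_inv_eq_one₀ (pow_ne_zero k hx0)] at hk1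
  rw [← hs] at hk1 ⊢
  exact E1 hg x hx s k hk hk1

theorem eq_inv_of_lg_eq_neg (hg : MinPoly Ω B g) (hB : B < 2) (x y : Ω) (hx : aeval x g = 0)
    (hxi : aeval x⁻¹ g = 0) (hy : aeval y g = 0) (h : lg ι y = -lg ι x) : y = x⁻¹ := by
  refine eq_of_lg_eq ι hg hB x⁻¹ y hxi hy ?_
  rw [h, lg_inv]

end Pool.Agent.Lib.MP_7ab245_nt.Solv
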