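import Mathlib
import Pool.Agent.Lib.MP_7ab245_nt.Solv.F.Stab
import Pool.Agent.Lib.MP_7ab245_nt.Solv.F.Recip
import Pool.Agent.Lib.MP_7ab245_nt.Solv.F.Embed

/-! The action of the Galois group of the trace polynomial on its roots. -/

set_option autoImplicit false

open Polynomial

namespace Pool.Agent.Lib.MP_7ab245_nt.Solv

private theorem gal_trans {K : Type} [Field K] (p : K[X]) (hp : Irreducible p)
    (θ : p.SplittingField) (hθ : aeval θ p = 0) (σ : p.Gal)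
    (h : ∀ τ : p.Gal, σ (τ θ) = τ θ) : σ = 1 := by
  apply Polynomial.Gal.ext
  intro x hx
  have hx' : aeval x p = 0 := (mem_rootSet.1 hx).2
  have hint : IsIntegral K θ := Algebra.IsIntegral.isIntegral θ
  have h1 : aeval x (minpoly K θ) = 0 := by
    have h2 := minpoly.eq_of_irreducible hp hθ
    rw [← h2, map_mul, hx', zero_mul]
  obtain ⟨τ, hτ⟩ := minpoly.exists_algEquiv_of_root' (K := K) (L := p.SplittingField)
    hint.isAlgebraic h1
  have h3 := h τ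
  have h4 : (τ : p.SplittingField ≃ₐ[K] p.SplittingField) θ = x := hτ
  have h5 : σ x = x := by
    rw [← h4]
    exact h3
  rw [h5]
  rfl

private theorem aeval_rat {E : Type} [Field E] [Algebra ℚ E] (h : ℤ[X]) (y : E) :
    aeval y (rat h) = aeval y h := by
  rw [rat, aeval_def, aeval_def, eval₂_map]
  congr 1
  exact RingHom.ext_int _ _

private theorem gal_trans' (h : ℤ[X]) (hp : Irreducible (rat h))
    (θ : (rat h).SplittingField) (hθ : aeval θ h = 0) (σ : (rat h).Gal)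
    (hσ : ∀ τ : (rat h).Gal, σ (τ θ) = τ θ) : σ = 1 :=
  gal_trans (rat h) hp θ ((aeval_rat h θ).trans hθ) σ hσ

theorem exists_bridge {Ω : Type} [Field Ω] [NumberField Ω] [IsGalois ℚ Ω] {B : ℝ} {g h : ℤ[X]}
    (ι : Ω →+* ℂ) (hg : MinPoly Ω B g) (hB : B < 2) (hgr : g ∣ g.reverse) (hm : h.Monic)
    (hi : Irreducible h) (hs : (h.map (algebraMap ℤ Ω)).Splits)
    (hfrom : ∀ y : Ω, aeval y h = 0 → ∃ x : Ω, aeval x g = 0 ∧ y = x + x⁻¹) :
    ∃ π : (Ω ≃ₐ[ℚ] Ω) →* (rat h).Gal, Function.Surjective π ∧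
      ∀ θ : (rat h).SplittingField, aeval θ h = 0 → ∃ x : Ω, aeval x g = 0 ∧
        (∀ s t : Ω ≃ₐ[ℚ] Ω, (π s) θ = (π t) θ ↔
          (rep (Ω ≃ₐ[ℚ] Ω) s (lg ι x) = rep (Ω ≃ₐ[ℚ] Ω) t (lg ι x) ∨
            rep (Ω ≃ₐ[ℚ] Ω) s (lg ι x) = -rep (Ω ≃ₐ[ℚ] Ω) t (lg ι x))) ∧
        ∀ s, π s = 1 ↔
          ∀ t, rep (Ω ≃ₐ[ℚ] Ω) (s * t) (lg ι x) = rep (Ω ≃ₐ[ℚ] Ω) t (lg ι x) ∨
            rep (Ω ≃ₐ[ℚ] Ω) (s * t) (lg ι x) = -rep (Ω ≃ₐ[ℚ] Ω) t (lg ι x) := by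
  obtain ⟨π, hπ, e, he⟩ := exists_embed h hs
  refine ⟨π, hπ, fun θ hθ => ?_⟩
  have hy : aeval (e θ) h = 0 := by
    have h1 : aeval (e θ) h = e (aeval θ h) := by
      rw [aeval_def, aeval_def, hom_eval₂]
      congr 1
      exact RingHom.ext_int _ _
    rw [h1, hθ, map_zero]
  obtain ⟨x, hx, hxy⟩ := hfrom _ hy
  have hroot : ∀ s : Ω ≃ₐ[ℚ] Ω, aeval (s x) g = 0 := fun s => by
    rw [aeval_aut, hx, map_zero]
  have hne : ∀ s : Ω ≃ₐ[ℚ] Ω, s x ≠ 0 := fun s => root_ne_zero hg hB _ (hroot s)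
  have hkey : ∀ s t : Ω ≃ₐ[ℚ] Ω, (π s) θ = (π t) θ ↔
      (rep (Ω ≃ₐ[ℚ] Ω) s (lg ι x) = rep (Ω ≃ₐ[ℚ] Ω) t (lg ι x) ∨
        rep (Ω ≃ₐ[ℚ] Ω) s (lg ι x) = -rep (Ω ≃ₐ[ℚ] Ω) t (lg ι x)) := by
    intro s t
    have h1 : (π s) θ = (π t) θ ↔ s (e θ) = t (e θ) := by
      rw [← he, ← he]
      exact e.injective.eq_iff.symm
    rw [h1, hxy, rep_lg, rep_lg, map_add, map_add, map_inv₀, map_inv₀]
    constructor
    · intro h2
      have h3 : (s x - t x) * (s x - (t x)⁻¹) = 0 := by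
        have h4 : s x * (s x + (s x)⁻¹) = s x * (t x + (t x)⁻¹) := by rw [h2]
        rw [mul_add, mul_inv_cancel₀ (hne s)] at h4
        have h5 : t x * (t x)⁻¹ = 1 := mul_inv_cancel₀ (hne t)
        linear_combination h4 + h5
      rcases mul_eq_zero.1 h3 with h4 | h4
      · left
        rw [sub_eq_zero.1 h4]
      · right
        rw [sub_eq_zero.1 h4, lg_inv]
    · rintro (h2 | h2)
      · rw [eq_of_lg_eq ι hg hB (t x) (s x) (hroot t) (hroot s) h2]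
      · rw [eq_inv_of_lg_eq_neg ι hg hB (t x) (s x) (hroot t) (aeval_inv hgr _ (hroot t))
          (hroot s) h2, inv_inv, add_comm]
  refine ⟨x, hx, hkey, fun s => ?_⟩
  constructor
  · intro h1 t
    rw [← hkey, map_mul, h1, one_mul]
  · intro h1
    have hirr : Irreducible (rat h) :=
      (Polynomial.IsPrimitive.Int.irreducible_iff_irreducible_map_cast hm.isPrimitive).1 hi
    apply gal_trans' h hirr θ hθ
    intro τ
    obtain ⟨t, rfl⟩ := hπ τ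
    have h2 := (hkey (s * t) t).2 (h1 t)
    rw [map_mul] at h2
    exact h2

end Pool.Agent.Lib.MP_7ab245_nt.Solv
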