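import Mathlib
import Pool.Agent.Lib.MP_7ab245_nt.Solv.TheoremB
import Pool.Agent.Lib.MP_7ab245_nt.Solv.F.Stab

/-! Module SF-GroupB. Theorem B in terms of the action of the Galois group on the logarithmic vectors.
PROOF. `rep (s * t i) (lg ι x) = lg ι (s (t i x))` (`rep_lg`), and `z ↦ lg ι z` is injective on the roots
of `g` (`eq_of_lg_eq`), so the range in question has the same cardinality as the range of
`s ↦ (s (t i x))_i`, which is `finrank ℚ (adjoin ℚ (range (t i x)))` (`card_range_eq_finrank`). The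
`t i x` are roots of `g`, multiplicatively independent by `mulInd_of_linearIndependent`. Apply
`theoremB r K` (`M g ≤ B < 2`, `|g.coeff 0| = 1`). For `card_orbit_lg`: the same with one
vector and `card_orbit_eq_natDegree`. -/

set_option autoImplicit false

open Polynomial

namespace Pool.Agent.Lib.MP_7ab245_nt.Solv

/-- `lg` is injective on the conjugates of a root -/
private theorem lg_eq_iff {Ω : Type} [Field Ω] [NumberField Ω] [IsGalois ℚ Ω] {B : ℝ} {g : ℤ[X]}
    (ι : Ω →+* ℂ) (hg : MinPoly Ω B g) (hB : B < 2) (x : Ω) (hx : aeval x g = 0)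
    (s t : Ω ≃ₐ[ℚ] Ω) : lg ι (s x) = lg ι (t x) ↔ s x = t x := by
  constructor
  · intro h
    have h1 : aeval (s x) g = 0 := by rw [aeval_aut, hx, map_zero]
    have h2 : aeval (t x) g = 0 := by rw [aeval_aut, hx, map_zero]
    exact eq_of_lg_eq ι hg hB (t x) (s x) h2 h1 h
  · intro h
    rw [h]

/-- two maps with the same fibres have ranges of the same cardinality -/
private theorem card_range_congr {α β γ : Type} (f : α → β) (h : α → γ)
    (hfh : ∀ a b, f a = f b ↔ h a = h b) : Nat.card (Set.range f) = Nat.card (Set.range h) := by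
  have hs : Setoid.ker f = Setoid.ker h := by
    ext a b
    exact hfh a b
  have e1 : Quotient (Setoid.ker f) ≃ Set.range f := Setoid.quotientKerEquivRange f
  have e2 : Quotient (Setoid.ker h) ≃ Set.range h := Setoid.quotientKerEquivRange h
  rw [← Nat.card_congr e1, ← Nat.card_congr e2, hs]

theorem card_orbit_lg {Ω : Type} [Field Ω] [NumberField Ω] [IsGalois ℚ Ω] {B : ℝ} {g : ℤ[X]}
    (ι : Ω →+* ℂ) (hg : MinPoly Ω B g) (hB : B < 2) (x : Ω) (hx : aeval x g = 0) :
    Nat.card (Set.range fun s : Ω ≃ₐ[ℚ] Ω => rep (Ω ≃ₐ[ℚ] Ω) s (lg ι x)) = g.natDegree := by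
  rw [← card_orbit_eq_natDegree g hg.monic hg.irr x hx]
  apply card_range_congr
  intro a b
  rw [rep_lg, rep_lg]
  exact lg_eq_iff ι hg hB x hx a b

/-- Theorem B in group form. -/
theorem groupB (r K : ℕ) (hr : 1 ≤ r) : ∃ n₀ : ℕ, ∀ (Ω : Type) [Field Ω] [NumberField Ω]
    [IsGalois ℚ Ω] (ι : Ω →+* ℂ) (B : ℝ) (g : ℤ[X]), MinPoly Ω B g → B < 2 → n₀ ≤ g.natDegree →
    ∀ (x : Ω), aeval x g = 0 → ∀ t : Fin r → (Ω ≃ₐ[ℚ] Ω),
    LinearIndependent ℚ (fun i => rep (Ω ≃ₐ[ℚ] Ω) (t i) (lg ι x)) →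
    K * g.natDegree ^ (r - 1) < Nat.card (Set.range fun s : Ω ≃ₐ[ℚ] Ω => fun i =>
      rep (Ω ≃ₐ[ℚ] Ω) (s * t i) (lg ι x)) := by
  obtain ⟨n₀, hn₀⟩ := theoremB r K hr
  refine ⟨n₀, ?_⟩
  intro Ω _ _ _ ι B g hg hB hn x hx t hli
  have hroot : ∀ u : Ω ≃ₐ[ℚ] Ω, aeval (u x) g = 0 := by
    intro u
    rw [aeval_aut, hx, map_zero]
  have hne : ∀ i, t i x ≠ 0 := fun i => root_ne_zero hg hB _ (hroot (t i))
  have hmi : MulInd fun i => t i x := by
    apply mulInd_of_linearIndependent ι _ hne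
    simpa only [rep_lg] using hli
  have hM : (g.map (Int.castRingHom ℂ)).mahlerMeasure ≤ 2 := hg.le.trans hB.le
  have key := hn₀ g hg.monic hg.irr hn (hg.abs_coeff_zero hB) hM Ω hg.splits (fun i => t i x)
    (fun i => hroot (t i)) hmi
  rw [← card_range_eq_finrank] at key
  refine lt_of_lt_of_eq key ?_
  apply card_range_congr
  intro a b
  constructor
  · intro h
    funext i
    have h1 : (a * t i) x = (b * t i) x := congrFun h i
    rw [rep_lg, rep_lg]
    exact (lg_eq_iff ι hg hB x hx (a * t i) (b * t i)).2 h1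
  · intro h
    funext i
    have h1 := congrFun h i
    rw [rep_lg, rep_lg] at h1
    exact (lg_eq_iff ι hg hB x hx (a * t i) (b * t i)).1 h1

end Pool.Agent.Lib.MP_7ab245_nt.Solv
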