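import Mathlib
import Pool.Agent.Lib.MP_7ab245_nt.Solv.TheoremB
import Pool.Agent.Lib.MP_7ab245_nt.Solv.F.GroupB

/-! Theorem B with exponent `r - 1 / D` in terms of the action of the Galois group. -/

set_option autoImplicit false

open Polynomial

namespace Pool.Agent.Lib.MP_7ab245_nt.Solv

private theorem lg_eq_iff' {Ω : Type} [Field Ω] [NumberField Ω] [IsGalois ℚ Ω] {B : ℝ} {g : ℤ[X]}
    (ι : Ω →+* ℂ) (hg : MinPoly Ω B g) (hB : B < 2) (x : Ω) (hx : aeval x g = 0)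
    (s t : Ω ≃ₐ[ℚ] Ω) : lg ι (s x) = lg ι (t x) ↔ s x = t x := by
  constructor
  · intro h
    have h1 : aeval (s x) g = 0 := by rw [aeval_aut, hx, map_zero]
    have h2 : aeval (t x) g = 0 := by rw [aeval_aut, hx, map_zero]
    exact eq_of_lg_eq ι hg hB (t x) (s x) h2 h1 h
  · intro h
    rw [h]

private theorem card_range_congr' {α β γ : Type} (f : α → β) (h : α → γ)
    (hfh : ∀ a b, f a = f b ↔ h a = h b) : Nat.card (Set.range f) = Nat.card (Set.range h) := by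
  have hs : Setoid.ker f = Setoid.ker h := by
    ext a b
    exact hfh a b
  have e1 : Quotient (Setoid.ker f) ≃ Set.range f := Setoid.quotientKerEquivRange f
  have e2 : Quotient (Setoid.ker h) ≃ Set.range h := Setoid.quotientKerEquivRange h
  rw [← Nat.card_congr e1, ← Nat.card_congr e2, hs]

theorem card_range_rep {Ω : Type} [Field Ω] [NumberField Ω] [IsGalois ℚ Ω] {B : ℝ} {g : ℤ[X]}
    (ι : Ω →+* ℂ) (hg : MinPoly Ω B g) (hB : B < 2) (x : Ω) (hx : aeval x g = 0) {r : ℕ}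
    (t : Fin r → (Ω ≃ₐ[ℚ] Ω)) :
    Nat.card (Set.range fun s : Ω ≃ₐ[ℚ] Ω => fun i => rep (Ω ≃ₐ[ℚ] Ω) (s * t i) (lg ι x)) =
      Module.finrank ℚ (IntermediateField.adjoin ℚ (Set.range fun i => t i x)) := by
  rw [← card_range_eq_finrank]
  apply card_range_congr'
  intro a b
  constructor
  · intro h
    funext i
    have h1 := congrFun h i
    simp only [rep_lg] at h1
    exact (lg_eq_iff' ι hg hB x hx (a * t i) (b * t i)).1 h1
  · intro h
    funext i
    have h1 : (a * t i) x = (b * t i) x := congrFun h i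
    simp only [rep_lg]
    exact (lg_eq_iff' ι hg hB x hx (a * t i) (b * t i)).2 h1

/-- Theorem B in group form, exponent `r - 1 / D`. -/
theorem groupBD (r D : ℕ) (hr : 1 ≤ r) (hD : 1 ≤ D) : ∃ n₀ : ℕ, ∀ (Ω : Type) [Field Ω]
    [NumberField Ω] [IsGalois ℚ Ω] (ι : Ω →+* ℂ) (B : ℝ) (g : ℤ[X]), MinPoly Ω B g → B < 2 →
    n₀ ≤ g.natDegree → ∀ (x : Ω), aeval x g = 0 → ∀ t : Fin r → (Ω ≃ₐ[ℚ] Ω),
    LinearIndependent ℚ (fun i => rep (Ω ≃ₐ[ℚ] Ω) (t i) (lg ι x)) →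
    g.natDegree ^ (r * D - 1) < Nat.card (Set.range fun s : Ω ≃ₐ[ℚ] Ω => fun i =>
      rep (Ω ≃ₐ[ℚ] Ω) (s * t i) (lg ι x)) ^ D := by
  obtain ⟨n₀, hn₀⟩ := theoremB_delta r D hr hD
  refine ⟨n₀, ?_⟩
  intro Ω _ _ _ ι B g hg hB hn x hx t hli
  have hroot : ∀ u : Ω ≃ₐ[ℚ] Ω, aeval (u x) g = 0 := by
    intro u
    rw [aeval_aut, hx, map_zero]
  have hne : ∀ i, t i x ≠ 0 := fun i => root_ne_zero hg hB _ (hroot (t i))
  have hmi : MulInd fun i => t i x := by
    apply mulInd_of_linearIndependent ι _ hne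
    simpa only [rep_lg] using hli
  have hM : (g.map (Int.castRingHom ℂ)).mahlerMeasure ≤ 2 := hg.le.trans hB.le
  rw [card_range_rep ι hg hB x hx t]
  exact hn₀ g hg.monic hg.irr hn (hg.abs_coeff_zero hB) hM Ω hg.splits (fun i => t i x)
    (fun i => hroot (t i)) hmi

end Pool.Agent.Lib.MP_7ab245_nt.Solv
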