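import Mathlib
import Pool.Agent.Lib.MP_7ab245_nt.Solv.F.Base

/-! Module SF-GalH. The Galois group of `h` as a quotient of the Galois group of `Ω`.
WARNING. In `Ω = (rat f).SplittingField` there are two `Algebra ℚ Ω` instances: the one of
`Polynomial.SplittingField` (used in `(rat f).Gal`) and `DivisionRing.toRatAlgebra` (found by default). They are
equal by `Subsingleton.elim` (see `F/Inst.lean` for how to pass from one to the other). The instances
`NumberField`, `IsGalois ℚ` for `(rat f).SplittingField` are in `F/Inst.lean` (import it if you want).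
PROOFS. `Polynomial.Gal.restrict (rat h) Ω` with `Polynomial.Gal.restrict_surjective` (`Ω` is normal over
`ℚ`) and `Polynomial.Gal.restrict_smul` / `galActionHom_restrict`, `galActionHom_injective`: `restrict s = 1`
iff `s` fixes the roots of `h` in `Ω`. (`(rat h).map (algebraMap ℚ Ω) = h.map (algebraMap ℤ Ω)`.) For
`solvable_gal`: take `Ω = (rat f).SplittingField`, for which `Ω ≃ₐ[ℚ] Ω` is `(rat f).Gal`, and
`solvable_of_surjective`. `natDegree_eq_one`: if `(rat h).Gal` is trivial then
`finrank ℚ (rat h).SplittingField = 1` (`Polynomial.Gal.card_of_separable` or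
`IsGalois.card_aut_eq_finrank`), so `rat h` splits over `ℚ`; it is irreducible (Gauss), so of degree one. -/

set_option autoImplicit false

open Polynomial

namespace Pool.Agent.Lib.MP_7ab245_nt.Solv

private theorem galH_aeval {Ω : Type} [Field Ω] [Algebra ℚ Ω] (h : ℤ[X]) (y : Ω) :
    aeval y (rat h) = aeval y h := by
  rw [rat, aeval_def, aeval_def, eval₂_map]
  congr 1
  exact RingHom.ext_int _ _

private theorem galH_kernel {K : Type} [Field K] (p : K[X]) (hp : p ≠ 0) (Ω : Type) [Field Ω]
    [Algebra K Ω] [Normal K Ω] (hs : (p.map (algebraMap K Ω)).Splits) :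
    ∃ π : (Ω ≃ₐ[K] Ω) →* p.Gal, Function.Surjective π ∧
      ∀ s, π s = 1 ↔ ∀ y : Ω, aeval y p = 0 → s y = y := by
  have : Fact ((p.map (algebraMap K Ω)).Splits) := ⟨hs⟩
  refine ⟨Polynomial.Gal.restrict p Ω, Polynomial.Gal.restrict_surjective p Ω, fun s => ?_⟩
  constructor
  · intro h1 y hy
    have hmem : y ∈ p.rootSet Ω := mem_rootSet.2 ⟨hp, hy⟩
    have h2 := Polynomial.Gal.restrict_smul s ⟨y, hmem⟩
    rw [h1, one_smul] at h2
    exact h2.symm
  · intro h1
    apply Polynomial.Gal.galActionHom_injective p Ω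
    rw [map_one]
    ext x
    rw [Polynomial.Gal.galActionHom_restrict]
    exact h1 x (mem_rootSet.1 x.2).2

theorem exists_restrict {Ω : Type} [Field Ω] [NumberField Ω] [IsGalois ℚ Ω] (h : ℤ[X])
    (h0 : h ≠ 0) (hs : (h.map (algebraMap ℤ Ω)).Splits) :
    ∃ π : (Ω ≃ₐ[ℚ] Ω) →* (rat h).Gal, Function.Surjective π ∧
      ∀ s, π s = 1 ↔ ∀ y : Ω, aeval y h = 0 → s y = y := by
  have hr : rat h ≠ 0 := (Polynomial.map_ne_zero_iff (RingHom.injective_int _)).2 h0
  have hs' : ((rat h).map (algebraMap ℚ Ω)).Splits := by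
    rw [rat, Polynomial.map_map]
    have : (algebraMap ℚ Ω).comp (Int.castRingHom ℚ) = algebraMap ℤ Ω := RingHom.ext_int _ _
    rw [this]
    exact hs
  obtain ⟨π, h1, h2⟩ := galH_kernel (rat h) hr Ω hs'
  refine ⟨π, h1, fun s => (h2 s).trans ?_⟩
  simp only [galH_aeval]

private theorem galH_solvable {K : Type} [Field K] (p q : K[X])
    (hs : (q.map (algebraMap K p.SplittingField)).Splits) (hf : Group.IsSolvable p.Gal) :
    Group.IsSolvable q.Gal := by
  have : Fact ((q.map (algebraMap K p.SplittingField)).Splits) := ⟨hs⟩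
  have hN : Normal K p.SplittingField := SplittingField.instNormal p
  have hsurj := Polynomial.Gal.restrict_surjective q p.SplittingField
  have hf' : Group.IsSolvable (p.SplittingField ≃ₐ[K] p.SplittingField) := hf
  exact Group.isSolvable_of_surjective hsurj

theorem solvable_gal (f h : ℤ[X]) (h0 : h ≠ 0)
    (hs : (h.map (Int.castRingHom (rat f).SplittingField)).Splits) (hf : Group.IsSolvable (rat f).Gal) :
    Group.IsSolvable (rat h).Gal := by
  apply galH_solvable (rat f) (rat h) _ hf
  have e : (rat h).map (algebraMap ℚ (rat f).SplittingField) =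
      h.map (Int.castRingHom (rat f).SplittingField) := by
    have e1 := Polynomial.map_map (Int.castRingHom ℚ) (algebraMap ℚ (rat f).SplittingField) h
    refine e1.trans ?_
    congr 1
  exact e ▸ hs

private theorem galH_splits {K : Type} [Field K] [CharZero K] (p : K[X]) (hp : Irreducible p)
    (ht : (⊤ : Subgroup p.Gal) = ⊥) : p.natDegree = 1 := by
  have hsep := hp.separable
  have h1 := Polynomial.Gal.card_of_separable hsep
  have h2 : Nat.card p.Gal = 1 := by
    have h3 : Nat.card (⊤ : Subgroup p.Gal) = 1 := by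
      rw [ht]
      exact Subgroup.card_bot
    rwa [Subgroup.card_top] at h3
  rw [h2] at h1
  have h4 : (⊤ : Subalgebra K p.SplittingField) = ⊥ :=
    (Subalgebra.bot_eq_top_of_finrank_eq_one h1.symm).symm
  have h5 : p.Splits := (IsSplittingField.splits_iff p.SplittingField p).2 h4
  have h6 := h5.degree_eq_one_of_irreducible hp
  exact natDegree_eq_of_degree_eq_some h6

theorem natDegree_eq_one (h : ℤ[X]) (hm : h.Monic) (hi : Irreducible h)
    (ht : (⊤ : Subgroup (rat h).Gal) = ⊥) : h.natDegree = 1 := by
  have hirr : Irreducible (rat h) :=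
    (Polynomial.IsPrimitive.Int.irreducible_iff_irreducible_map_cast hm.isPrimitive).1 hi
  have h1 := galH_splits (rat h) hirr ht
  rwa [rat, hm.natDegree_map] at h1

end Pool.Agent.Lib.MP_7ab245_nt.Solv
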