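import Mathlib
import Pool.Agent.Lib.MP_7ab245_nt.Solv.F.Stab
import Pool.Agent.Lib.MP_7ab245_nt.Solv.F.Recip
import Pool.Agent.Lib.MP_7ab245_nt.Solv.F.GalH

/-! Module SF-Bridge. The Galois group of the trace polynomial `h` is the quotient of the Galois group `G` of `Ω`
by the kernel of its action on the lines of the vectors `lg ι (t x)`.
PROOF. Take `π` from `exists_restrict`. Every root of `g` is `t x` for some `t` (`exists_aut_of_root`), every `t x` is a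
root of `g` (`aeval_aut`), and `(t x)⁻¹` too (`aeval_inv`); `t x ≠ 0` (`root_ne_zero`).
If `π s = 1` then `s` fixes `x' + x'⁻¹` (a root of `h` by `hto`), `x' = t x`, so `s x' + (s x')⁻¹ = x' + x'⁻¹`, so
`s x' = x'` or `s x' = x'⁻¹` (`(s x' - x') * (s x' - x'⁻¹) = 0` after multiplying by `s x'`), so
`rep (s * t) (lg ι x) = lg ι (s x') = ± lg ι x' = ± rep t (lg ι x)` (`rep_lg`, `lg_inv`).
Conversely let `y` be a root of `h` in `Ω`; `y = x' + x'⁻¹` (`hfrom`) with `x' = t x`. `lg ι (s x') = ± lg ι x'`, so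
`s x' = x'` (`eq_of_lg_eq`) or `s x' = x'⁻¹` (`eq_inv_of_lg_eq_neg`), and `s y = y`. -/

set_option autoImplicit false

open Polynomial

namespace Pool.Agent.Lib.MP_7ab245_nt.Solv

theorem exists_isQ {Ω : Type} [Field Ω] [NumberField Ω] [IsGalois ℚ Ω] {B : ℝ} {g h : ℤ[X]}
    (ι : Ω →+* ℂ) (hg : MinPoly Ω B g) (hB : B < 2) (hgr : g ∣ g.reverse) (h0 : h ≠ 0)
    (hs : (h.map (algebraMap ℤ Ω)).Splits)
    (hto : ∀ x : Ω, aeval x g = 0 → aeval (x + x⁻¹) h = 0)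
    (hfrom : ∀ y : Ω, aeval y h = 0 → ∃ x : Ω, aeval x g = 0 ∧ y = x + x⁻¹)
    (x : Ω) (hx : aeval x g = 0) :
    ∃ π : (Ω ≃ₐ[ℚ] Ω) →* (rat h).Gal, Function.Surjective π ∧ ∀ s, π s = 1 ↔
      ∀ t, rep (Ω ≃ₐ[ℚ] Ω) (s * t) (lg ι x) = rep (Ω ≃ₐ[ℚ] Ω) t (lg ι x) ∨
        rep (Ω ≃ₐ[ℚ] Ω) (s * t) (lg ι x) = -rep (Ω ≃ₐ[ℚ] Ω) t (lg ι x) := by
  obtain ⟨π, hπ, hk⟩ := exists_restrict h h0 hs
  refine ⟨π, hπ, fun s => (hk s).trans ?_⟩
  constructor
  · intro hfix t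
    have ht : aeval (t x) g = 0 := by rw [aeval_aut, hx, map_zero]
    have h0' : t x ≠ 0 := root_ne_zero hg hB _ ht
    have hs0 : s (t x) ≠ 0 := (map_ne_zero s).2 h0'
    have h1 := hfix _ (hto _ ht)
    rw [map_add, map_inv₀] at h1
    have h2 : (s (t x) - t x) * (s (t x) - (t x)⁻¹) = 0 := by
      have h3 : s (t x) * (s (t x) + (s (t x))⁻¹) = s (t x) * (t x + (t x)⁻¹) := by rw [h1]
      rw [mul_add, mul_inv_cancel₀ hs0] at h3
      have h4 : t x * (t x)⁻¹ = 1 := mul_inv_cancel₀ h0'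
      linear_combination h3 + h4
    rw [rep_lg, rep_lg, AlgEquiv.mul_apply]
    rcases mul_eq_zero.1 h2 with h3 | h3
    · left
      rw [sub_eq_zero.1 h3]
    · right
      rw [sub_eq_zero.1 h3, lg_inv]
  · intro hrep y hy
    obtain ⟨x', hx', rfl⟩ := hfrom y hy
    obtain ⟨t, rfl⟩ := exists_aut_of_root g hg.monic hg.irr x x' hx hx'
    have hsx : aeval (s (t x)) g = 0 := by rw [aeval_aut, hx', map_zero]
    have h1 := hrep t
    rw [rep_lg, rep_lg, AlgEquiv.mul_apply] at h1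
    rw [map_add, map_inv₀]
    rcases h1 with h1 | h1
    · rw [eq_of_lg_eq ι hg hB (t x) (s (t x)) hx' hsx h1]
    · rw [eq_inv_of_lg_eq_neg ι hg hB (t x) (s (t x)) hx' (aeval_inv hgr _ hx') hsx h1, inv_inv,
        add_comm]

end Pool.Agent.Lib.MP_7ab245_nt.Solv
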