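import Mathlib

/-! Module SF-SolvGroup. A nontrivial solvable normal subgroup contains a nontrivial abelian subgroup
which is normal in the whole group.
PROOF. Let `k` be minimal with `derivedSeries N k = ⊥` (`N` is solvable); `k ≥ 1` since `N ≠ ⊥`. Let
`A = (derivedSeries N (k-1)).map N.subtype`. It is normal in `G`, because a characteristic subgroup of the
normal subgroup `N` is normal in `G` (`derivedSeries_characteristic` and the instance
`ConjAct.normal_of_characteristic_of_normal`); `A ≠ ⊥` by minimality; `⁅A, A⁆ = ⊥` since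
`derivedSeries N k = ⁅derivedSeries N (k-1), derivedSeries N (k-1)⁆ = ⊥`. -/

set_option autoImplicit false

namespace Pool.Agent.Lib.MP_7ab245_nt.Solv

theorem exists_abelian_normal {G : Type} [Group G] (N : Subgroup G) [N.Normal] (hs : Group.IsSolvable N)
    (hN : N ≠ ⊥) : ∃ A : Subgroup G, A.Normal ∧ A ≤ N ∧ A ≠ ⊥ ∧
      ∀ a ∈ A, ∀ b ∈ A, a * b * a⁻¹ * b⁻¹ = 1 := by
  classical
  have hex : ∃ n, derivedSeries N n = ⊥ := hs.solvable
  set k := Nat.find hex with hk
  have hk1 : derivedSeries N k = ⊥ := Nat.find_spec hex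
  have hk0 : k ≠ 0 := by
    intro h0
    rw [h0, derivedSeries_zero] at hk1
    apply hN
    rw [eq_bot_iff]
    intro x hx
    have : (⟨x, hx⟩ : N) ∈ (⊤ : Subgroup N) := Subgroup.mem_top _
    rw [hk1, Subgroup.mem_bot] at this
    have := congrArg Subtype.val this
    simpa using this
  obtain ⟨m, hm⟩ := Nat.exists_eq_succ_of_ne_zero hk0
  have hm1 : derivedSeries N m ≠ ⊥ := by
    intro h
    exact Nat.find_min hex (by omega : m < Nat.find hex) h
  have : (derivedSeries N m).Characteristic := derivedSeries_characteristic N m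
  refine ⟨(derivedSeries N m).map N.subtype, ?_, ?_, ?_, ?_⟩
  · infer_instance
  · exact Subgroup.map_subtype_le _
  · intro h
    apply hm1
    rwa [Subgroup.map_eq_bot_iff_of_injective _ N.subtype_injective] at h
  · rintro _ ⟨a, ha, rfl⟩ _ ⟨b, hb, rfl⟩
    have : a * b * a⁻¹ * b⁻¹ ∈ derivedSeries N (m + 1) := by
      rw [derivedSeries_succ]
      exact Subgroup.commutator_mem_commutator ha hb
    rw [show m + 1 = k from hm.symm, hk1, Subgroup.mem_bot] at this
    have h2 := congrArg N.subtype this
    simpa using h2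

end Pool.Agent.Lib.MP_7ab245_nt.Solv
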