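import Mathlib
import Pool.Agent.Lib.MP_7ab245_nt.Solv.F.ExistsMin
import Pool.Agent.Lib.MP_7ab245_nt.Solv.F.Orbit
import Pool.Agent.Lib.MP_7ab245_nt.Solv.F.Recip
import Pool.Agent.Lib.MP_7ab245_nt.Solv.F.E1Count

/-! Module SF-Trace. The trace polynomial of a reciprocal polynomial.
PROOF. Let `x` be a root of `g` in `Ω` (`g` splits and has degree `≥ 1`), `y = x + x⁻¹`, an
algebraic integer (`x⁻¹` is also a root of `g` by `aeval_inv`), `h = minpoly ℤ y`: monic, irreducible
(`minpoly.irreducible`, `minpoly.prime`), `m = deg h`. `recip h` is monic of degree `2 m` (`recip_monic`) and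
vanishes at `x` (`aeval_recip`), so `g ∣ recip h` (`minpoly.isIntegrallyClosed_dvd` with `g = minpoly ℤ x`,
`minpoly.isIntegrallyClosed_eq_field_fractions'`). Degrees: let
`t ∈ G` with `t x = x⁻¹` (`exists_aut_of_root`); `x⁻¹ ≠ x` since otherwise `x ^ 2 = 1` and `M g = 1`
(`g ∣ X ^ 2 - 1`, `M_le_of_dvd`; or `g ∣ X - 1` or `g ∣ X + 1`). The orbit of `x` has `n = deg g` elements, the
orbit of `y` has `m` elements (`card_orbit_eq_natDegree`), and `2 m ≤ n` by `orbit_count` (module E1Count) with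
`H = {s : s x = x ∨ s x = x⁻¹}` (a subgroup) and `b = y`, since `{s x : s ∈ H} = {x, x⁻¹}` has two elements.
As `g ∣ recip h` are monic and `deg (recip h) = 2 m ≤ n`, they are
equal. For the last claim: a root `y'` of `h` in `Ω` is `s y` for some `s`, that is `s x + (s x)⁻¹`; every root of `g` is
some `s x` (`exists_aut_of_root`, `aeval_aut`); and `h` splits in `Ω` because `Ω` is normal. -/

set_option autoImplicit false

open Polynomial

namespace Pool.Agent.Lib.MP_7ab245_nt.Solv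

/-- an element of `Ω` whose square is one is a root of no polynomial as in `MinPoly`. -/
private lemma inv_ne_self {Ω : Type} [Field Ω] [NumberField Ω] {B : ℝ} {g : ℤ[X]}
    (hg : MinPoly Ω B g) (x : Ω) (hx : aeval x g = 0) (hx0 : x ≠ 0) : x⁻¹ ≠ x := by
  intro hxx
  have h1 : x ^ 2 = 1 := by
    have h2 := mul_inv_cancel₀ hx0
    rw [hxx] at h2
    rw [pow_two, h2]
  obtain ⟨a, ha, ha1⟩ : ∃ a : ℤ, x = ((a : ℤ) : Ω) ∧ |(a : ℝ)| ≤ 1 := by
    rcases mul_self_eq_one_iff.1 ((pow_two x).symm.trans h1) with h | h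
    · exact ⟨1, by rw [h]; simp, by simp⟩
    · exact ⟨-1, by rw [h]; simp, by simp⟩
  have h2 := minpoly_eq_map g hg.monic hg.irr x hx
  have h3 : x = algebraMap ℚ Ω (a : ℚ) := by rw [ha]; simp
  have h4 : minpoly ℚ x = X - C (a : ℚ) := by
    rw [h3]
    exact minpoly.eq_X_sub_C Ω (a : ℚ)
  have h5 : g = X - C a := by
    apply Polynomial.map_injective (Int.castRingHom ℚ) Int.cast_injective
    rw [← h2, h4]
    simp
  have h6 : M g ≤ 1 := by
    rw [h5, M, Polynomial.map_sub, Polynomial.map_X, Polynomial.map_C, mahlerMeasure_X_sub_C]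
    apply max_le le_rfl
    simpa using ha1
  linarith [hg.one_lt]

theorem exists_trace {Ω : Type} [Field Ω] [NumberField Ω] [IsGalois ℚ Ω] {B : ℝ} {g : ℤ[X]}
    (hg : MinPoly Ω B g) (hB : B < 2) (hr : g ∣ g.reverse) :
    ∃ h : ℤ[X], h.Monic ∧ Irreducible h ∧ recip h = g ∧ (h.map (algebraMap ℤ Ω)).Splits ∧
      (∀ x : Ω, aeval x g = 0 → aeval (x + x⁻¹) h = 0) ∧
      ∀ y : Ω, aeval y h = 0 → ∃ x : Ω, aeval x g = 0 ∧ y = x + x⁻¹ := by
  have hdeg : g.natDegree ≠ 0 := by
    intro h0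
    have h1 : g = 1 := (Polynomial.Monic.natDegree_eq_zero hg.monic).1 h0
    exact hg.irr.not_isUnit (h1 ▸ isUnit_one)
  obtain ⟨x, hx⟩ : ∃ x : Ω, aeval x g = 0 := by
    have h1 : (g.map (algebraMap ℤ Ω)).degree ≠ 0 := by
      rw [hg.monic.degree_map]
      intro h2
      exact hdeg (natDegree_eq_of_degree_eq_some h2)
    obtain ⟨x, hx⟩ := hg.splits.exists_eval_eq_zero h1
    refine ⟨x, ?_⟩
    rwa [eval_map_algebraMap] at hx
  have hx0 : x ≠ 0 := by
    intro h0
    rw [h0] at hx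
    obtain ⟨c, hc⟩ := hr
    have h1 : aeval (0 : Ω) g.reverse = 0 := by rw [hc, map_mul, hx, zero_mul]
    rw [← coeff_zero_eq_aeval_zero', coeff_zero_reverse, hg.monic.leadingCoeff] at h1
    simp at h1
  have hxi : aeval x⁻¹ g = 0 := aeval_inv hr x hx
  have hne : x⁻¹ ≠ x := inv_ne_self hg x hx hx0
  have hyint : IsIntegral ℤ (x + x⁻¹) :=
    IsIntegral.add ⟨g, hg.monic, hx⟩ ⟨g, hg.monic, hxi⟩
  have hhm : (minpoly ℤ (x + x⁻¹)).Monic := minpoly.monic hyint
  have hhi : Irreducible (minpoly ℤ (x + x⁻¹)) := minpoly.irreducible hyint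
  have hh0 : aeval (x + x⁻¹) (minpoly ℤ (x + x⁻¹)) = 0 := minpoly.aeval _ _
  obtain ⟨h, hh⟩ : ∃ h, h = minpoly ℤ (x + x⁻¹) := ⟨_, rfl⟩
  rw [← hh] at hhm hhi hh0
  obtain ⟨hrm, hrd⟩ := recip_monic h hhm
  have hr0 : aeval x (recip h) = 0 := by rw [aeval_recip h x hx0, hh0, mul_zero]
  have hdvd : g ∣ recip h := by
    rw [IsPrimitive.Int.dvd_iff_map_cast_dvd_map_cast _ _ hg.monic.isPrimitive,
      ← minpoly_eq_map g hg.monic hg.irr x hx]
    apply minpoly.dvd
    rw [← hr0]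
    exact aeval_map_algebraMap ℚ x (recip h)
  -- the subgroup
  let H : Subgroup (Ω ≃ₐ[ℚ] Ω) :=
    { carrier := {s | s x = x ∨ s x = x⁻¹}
      one_mem' := Or.inl rfl
      mul_mem' := by
        intro s t hs ht
        rcases ht with ht | ht
        · rcases hs with hs | hs
          · left
            rw [AlgEquiv.mul_apply, ht, hs]
          · right
            rw [AlgEquiv.mul_apply, ht, hs]
        · rcases hs with hs | hs
          · right
            rw [AlgEquiv.mul_apply, ht, map_inv₀, hs]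
          · left
            rw [AlgEquiv.mul_apply, ht, map_inv₀, hs, inv_inv]
      inv_mem' := by
        intro s hs
        rcases hs with hs | hs
        · left
          have h1 : s⁻¹ (s x) = x := by rw [← AlgEquiv.mul_apply, inv_mul_cancel]; rfl
          rwa [hs] at h1
        · right
          have h1 : s⁻¹ (s x) = x := by rw [← AlgEquiv.mul_apply, inv_mul_cancel]; rfl
          rw [hs, map_inv₀] at h1
          change s⁻¹ x = x⁻¹
          rw [← inv_inv (s⁻¹ x), h1] }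
  have hfin : Finite (Ω ≃ₐ[ℚ] Ω) := inferInstance
  have hcount := orbit_count (G := Ω ≃ₐ[ℚ] Ω) x (x + x⁻¹) H (fun t ht => Or.inl ht) (by
    intro t ht
    rcases ht with ht | ht
    · change t (x + x⁻¹) = _
      rw [map_add, map_inv₀, ht]
    · change t (x + x⁻¹) = _
      rw [map_add, map_inv₀, ht, inv_inv, add_comm])
  have hc1 : Nat.card (Set.range fun t : (Ω ≃ₐ[ℚ] Ω) => t • (x + x⁻¹)) = h.natDegree :=
    card_orbit_eq_natDegree h hhm hhi (x + x⁻¹) hh0
  have hc2 : Nat.card (Set.range fun t : (Ω ≃ₐ[ℚ] Ω) => t • x) = g.natDegree :=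
    card_orbit_eq_natDegree g hg.monic hg.irr x hx
  have hc3 : Nat.card (Set.range fun t : H => (t : Ω ≃ₐ[ℚ] Ω) • x) = 2 := by
    have h1 : (Set.range fun t : H => (t : Ω ≃ₐ[ℚ] Ω) • x) = {x, x⁻¹} := by
      apply Set.Subset.antisymm
      · rintro _ ⟨⟨t, ht⟩, rfl⟩
        rcases ht with ht | ht
        · left; exact ht
        · right; exact ht
      · intro z hz
        rcases hz with hz | hz
        · exact ⟨1, hz ▸ rfl⟩
        · obtain ⟨s, hs⟩ := exists_aut_of_root g hg.monic hg.irr x x⁻¹ hx hxi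
          rw [Set.mem_singleton_iff] at hz
          exact ⟨⟨s, Or.inr hs⟩, by rw [hz]; exact hs⟩
    rw [h1, Nat.card_coe_set_eq, Set.ncard_pair hne.symm]
  rw [hc1, hc2, hc3] at hcount
  have heq : recip h = g :=
    eq_of_monic_of_dvd_of_natDegree_le hg.monic hrm hdvd (by rw [hrd]; exact hcount)
  have hmap : minpoly ℚ (x + x⁻¹) = h.map (Int.castRingHom ℚ) :=
    minpoly_eq_map h hhm hhi (x + x⁻¹) hh0
  refine ⟨h, hhm, hhi, heq, ?_, ?_, ?_⟩
  · have h1 := (inferInstance : Normal ℚ Ω).splits (x + x⁻¹)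
    rw [hmap, Polynomial.map_map] at h1
    convert h1 using 2
    exact RingHom.ext_int _ _
  · intro z hz
    obtain ⟨s, hs⟩ := exists_aut_of_root g hg.monic hg.irr x z hx hz
    have h1 : z + z⁻¹ = s (x + x⁻¹) := by rw [map_add, map_inv₀, hs]
    rw [h1, aeval_aut, hh0, map_zero]
  · intro y hy
    obtain ⟨s, hs⟩ := exists_aut_of_root h hhm hhi (x + x⁻¹) y hh0 hy
    refine ⟨s x, ?_, ?_⟩
    · rw [aeval_aut, hx, map_zero]
    · rw [← hs, map_add, map_inv₀]

end Pool.Agent.Lib.MP_7ab245_nt.Solv
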