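import Mathlib
import Pool.Agent.Lib.MP_7ab245_nt.Solv.GroupA
import Pool.Agent.Lib.MP_7ab245_nt.Solv.F.GroupB
import Pool.Agent.Lib.MP_7ab245_nt.Solv.F.Trace
import Pool.Agent.Lib.MP_7ab245_nt.Solv.F.SolvGroup
import Pool.Agent.Lib.MP_7ab245_nt.Solv.F.Bridge

/-! Module SF-Core. For large degree the Galois group of the trace polynomial has no nontrivial solvable
normal subgroup.
PROOF. Let `n₀` be the maximum of the three numbers of `groupB r 512`, `r = 2, 3, 4`. Let `x` be a root of `g` in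
`Ω`, `ι : Ω →+* ℂ` an embedding, `w = lg ι x ≠ 0` (`lg_root_ne_zero`), `π` from `exists_isQ` (module Bridge). Suppose
`N ≠ ⊥`; take `A'` from `exists_abelian_normal` and `A = A'.comap π`, a normal subgroup of `G`.
For `a, b ∈ A` the commutator is in the kernel of `π`, so (with `t = 1` in `exists_isQ`) it maps `w` to `± w`: this is
the hypothesis `hA2` of `groupA`. Hypothesis `hA1`: suppose `rep a w = ± w` for all `a ∈ A`. For `a ∈ A` and `t ∈ G`:
`t⁻¹ a t ∈ A`, so `rep (a * t) w = rep t (rep (t⁻¹ * a * t) w) = ± rep t w`; so `π a = 1` by `exists_isQ`.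
As `π` is surjective, `A' = π(A) = ⊥`, a contradiction. So `groupA` gives
`r ∈ {2,3,4}` and `t : Fin r → G` with
`card (range ..) ≤ 512 * card (range (rep s w)) ^ (r-1) = 512 * n ^ (r - 1)` (`card_orbit_lg`), which contradicts
`groupB r 512` (`n ≥ n₀`). -/

set_option autoImplicit false

open Polynomial

namespace Pool.Agent.Lib.MP_7ab245_nt.Solv

theorem coreF : ∃ n₀ : ℕ, ∀ (Ω : Type) [Field Ω] [NumberField Ω] [IsGalois ℚ Ω] (B : ℝ)
    (g h : ℤ[X]), MinPoly Ω B g → B < 2 → n₀ ≤ g.natDegree → g ∣ g.reverse → h.Monic →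
    Irreducible h → (h.map (algebraMap ℤ Ω)).Splits →
    (∀ x : Ω, aeval x g = 0 → aeval (x + x⁻¹) h = 0) →
    (∀ y : Ω, aeval y h = 0 → ∃ x : Ω, aeval x g = 0 ∧ y = x + x⁻¹) →
    ∀ N : Subgroup (rat h).Gal, N.Normal → Group.IsSolvable N → N = ⊥ := by
  obtain ⟨n2, h2⟩ := groupB 2 512 (by norm_num)
  obtain ⟨n3, h3⟩ := groupB 3 512 (by norm_num)
  obtain ⟨n4, h4⟩ := groupB 4 512 (by norm_num)
  refine ⟨max n2 (max n3 n4), ?_⟩
  intro Ω _ _ _ B g h hg hB hn hgr hhm hhi hs hto hfrom N hN hNs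
  by_contra hne
  have hn2 : n2 ≤ g.natDegree := (le_max_left _ _).trans hn
  have hn3 : n3 ≤ g.natDegree := ((le_max_left _ _).trans (le_max_right _ _)).trans hn
  have hn4 : n4 ≤ g.natDegree := ((le_max_right _ _).trans (le_max_right _ _)).trans hn
  -- a root
  obtain ⟨x, hx⟩ : ∃ x : Ω, aeval x g = 0 := by
    have hd : (g.map (algebraMap ℤ Ω)).degree ≠ 0 := by
      rw [hg.monic.degree_map]
      intro h0
      have h5 : g.natDegree = 0 := natDegree_eq_of_degree_eq_some h0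
      have h6 : g = 1 := (hg.monic.natDegree_eq_zero).1 h5
      exact hg.irr.not_isUnit (h6 ▸ isUnit_one)
    obtain ⟨x, hx⟩ := hg.splits.exists_eval_eq_zero hd
    exact ⟨x, by rwa [eval_map_algebraMap] at hx⟩
  obtain ⟨ι⟩ : Nonempty (Ω →+* ℂ) := inferInstance
  obtain ⟨π, hπs, hπ⟩ := exists_isQ ι hg hB hgr hhm.ne_zero hs hto hfrom x hx
  obtain ⟨A', hA'n, -, hA'ne, hA'c⟩ := exists_abelian_normal N hNs hne
  have hA'c' : (A'.comap π).Normal := hA'n.comap π
  have hw : lg ι x ≠ 0 := lg_root_ne_zero ι hg hB x hx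
  obtain ⟨r, hr2, hr4, t, hli, hcard⟩ := groupA (rep (Ω ≃ₐ[ℚ] Ω)) (lg ι x) hw (A'.comap π)
    (by
      by_contra hcon
      push Not at hcon
      apply hA'ne
      rw [Subgroup.eq_bot_iff_forall]
      intro b hb
      obtain ⟨a, rfl⟩ := hπs b
      rw [hπ]
      intro t
      have h5 : t⁻¹ * a * t⁻¹⁻¹ ∈ A'.comap π := hA'c'.conj_mem a hb t⁻¹
      rw [inv_inv] at h5
      have h6 : rep (Ω ≃ₐ[ℚ] Ω) (a * t) (lg ι x) =
          rep (Ω ≃ₐ[ℚ] Ω) t (rep (Ω ≃ₐ[ℚ] Ω) (t⁻¹ * a * t) (lg ι x)) := by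
        rw [← Module.End.mul_apply, ← map_mul]
        congr 2
        group
      rw [h6]
      by_cases h7 : rep (Ω ≃ₐ[ℚ] Ω) (t⁻¹ * a * t) (lg ι x) = lg ι x
      · left
        rw [h7]
      · right
        rw [hcon _ h5 h7, map_neg])
    (by
      intro a ha b hb
      have h5 : π (a * b * a⁻¹ * b⁻¹) = 1 := by
        rw [map_mul, map_mul, map_mul, map_inv, map_inv]
        exact hA'c _ ha _ hb
      have h6 := (hπ _).1 h5 1
      rw [mul_one, map_one, Module.End.one_apply] at h6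
      exact h6)
  rw [card_orbit_lg ι hg hB x hx] at hcard
  interval_cases r
  · exact absurd hcard (not_le.2 (h2 Ω ι B g hg hB hn2 x hx t hli))
  · exact absurd hcard (not_le.2 (h3 Ω ι B g hg hB hn3 x hx t hli))
  · exact absurd hcard (not_le.2 (h4 Ω ι B g hg hB hn4 x hx t hli))

end Pool.Agent.Lib.MP_7ab245_nt.Solv
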