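import Mathlib
import Pool.Agent.Lib.MP_7ab245_nt.Solv.F.Base

/-! Instances for the splitting field of an integer polynomial. -/

set_option autoImplicit false

open Polynomial

namespace Pool.Agent.Lib.MP_7ab245_nt.Solv

theorem isSplittingField_rat (p : ℚ[X]) :
    @IsSplittingField ℚ p.SplittingField _ _ DivisionRing.toRatAlgebra p := by
  have h := Polynomial.IsSplittingField.splittingField p
  convert h
  exact Subsingleton.elim _ _

instance numberFieldSplittingField (f : ℤ[X]) : NumberField (rat f).SplittingField where
  to_charZero := inferInstance
  to_finiteDimensional := by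
    have := isSplittingField_rat (rat f)
    exact Polynomial.IsSplittingField.finiteDimensional _ (rat f)

instance isGaloisSplittingField (f : ℤ[X]) : IsGalois ℚ (rat f).SplittingField := by
  have := isSplittingField_rat (rat f)
  have : Normal ℚ (rat f).SplittingField := Normal.of_isSplittingField (rat f)
  exact ⟨⟩

theorem splits_self (f : ℤ[X]) : (f.map (algebraMap ℤ (rat f).SplittingField)).Splits := by
  have := isSplittingField_rat (rat f)
  have h1 := Polynomial.IsSplittingField.splits (K := ℚ) (rat f).SplittingField (rat f)
  have h2 : (f.map (Int.castRingHom ℚ)).map (algebraMap ℚ (rat f).SplittingField) =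
      f.map (algebraMap ℤ (rat f).SplittingField) := by
    rw [Polynomial.map_map]
    congr 1
  exact h2 ▸ h1

end Pool.Agent.Lib.MP_7ab245_nt.Solv
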