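import Mathlib
import Pool.Agent.Lib.MP_7ab245_nt.LogVar.Rigidity
import Pool.Agent.Lib.MP_7ab245_nt.Solv.F.Mul

/-! Module SF-NonRecip. A nonreciprocal irreducible polynomial has Mahler measure bounded away from 1.
PROOF. Apply `LogVar.rigidity g g.reverse` (file `LogVar/Rigidity.lean`; `LogVar.cx f` is
`f.map (Int.castRingHom ℂ)`, `LogVar.DD f g` the mean over `|z| = 1` of `(log ‖f z‖ - log ‖g z‖) ^ 2`). On
`‖z‖ = 1`, `‖g.reverse(z)‖ = ‖g(z)‖` (`g.reverse(z) = z ^ n * g(1/z)`, `1/z = conj z`, real coefficients; see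
`Polynomial.eval₂_reverse_mul_pow`), so `DD = 0`, and also `M g.reverse = M g` (the logarithmic Mahler
measure is the circle average of `log ‖g‖`). If the second alternative holds then
`c0 / (log 2) ^ 5 ≤ 2 * log (M g)`, so `M g ≥ 1 + c`. In the first one
`g * P = g.reverse * Q` with `M P = M Q = 1`; `g` is prime in `ℤ[X]`, so `g ∣ g.reverse` or `g ∣ Q`; the latter
gives `M g ≤ M Q = 1` (`M_le_of_dvd`; `Q ≠ 0` since `M Q = 1`), a contradiction. -/

set_option autoImplicit false

open Polynomial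

namespace Pool.Agent.Lib.MP_7ab245_nt.Solv

open Pool.Agent.Lib.MP_7ab245_nt.LogVar

private lemma eval_conj_map (g : ℤ[X]) (z : ℂ) :
    (g.map (Int.castRingHom ℂ)).eval (starRingEnd ℂ z) =
      starRingEnd ℂ ((g.map (Int.castRingHom ℂ)).eval z) := by
  have h : Int.castRingHom ℂ = (starRingEnd ℂ).comp (Int.castRingHom ℂ) := RingHom.ext_int _ _
  rw [Polynomial.eval_map, Polynomial.eval_map, Polynomial.hom_eval₂, ← h]

private lemma norm_eval_reverse (g : ℤ[X]) (z : ℂ) (hz : ‖z‖ = 1) :
    ‖(g.reverse.map (Int.castRingHom ℂ)).eval z‖ = ‖(g.map (Int.castRingHom ℂ)).eval z‖ := by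
  have hzc : starRingEnd ℂ z * z = 1 := by
    rw [mul_comm, Complex.mul_conj, Complex.normSq_eq_norm_sq, hz]; norm_num
  have hcz : z * starRingEnd ℂ z = 1 := by rw [mul_comm]; exact hzc
  let _ : Invertible (starRingEnd ℂ z) := ⟨z, hcz, hzc⟩
  have h := Polynomial.eval₂_reverse_mul_pow (Int.castRingHom ℂ) (starRingEnd ℂ z) g
  have h2 : (⅟(starRingEnd ℂ z) : ℂ) = z := rfl
  rw [h2] at h
  have h3 : ‖eval₂ (Int.castRingHom ℂ) z g.reverse * (starRingEnd ℂ z) ^ g.natDegree‖ =
      ‖eval₂ (Int.castRingHom ℂ) (starRingEnd ℂ z) g‖ := by rw [h]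
  rw [norm_mul, norm_pow, RCLike.norm_conj, hz, one_pow, mul_one] at h3
  rw [Polynomial.eval_map, h3, ← Polynomial.eval_map, eval_conj_map, RCLike.norm_conj]

private lemma M_reverse {g : ℤ[X]} (hg : g ≠ 0) : M g.reverse = M g := by
  have hr : g.reverse ≠ 0 := by rwa [ne_eq, Polynomial.reverse_eq_zero]
  have hinj : Function.Injective (Int.castRingHom ℂ) := RingHom.injective_int _
  have h1 : g.map (Int.castRingHom ℂ) ≠ 0 := (Polynomial.map_ne_zero_iff hinj).mpr hg
  have h2 : g.reverse.map (Int.castRingHom ℂ) ≠ 0 := (Polynomial.map_ne_zero_iff hinj).mpr hr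
  unfold M
  rw [Polynomial.mahlerMeasure_def_of_ne_zero h1, Polynomial.mahlerMeasure_def_of_ne_zero h2]
  have h3 : ∀ x : ℝ, Real.log ‖(g.reverse.map (Int.castRingHom ℂ)).eval (circleMap 0 1 x)‖ =
      Real.log ‖(g.map (Int.castRingHom ℂ)).eval (circleMap 0 1 x)‖ := by
    intro x
    rw [norm_eval_reverse g _ (by simp)]
  simp only [h3]

theorem nonrecip : ∃ c : ℝ, 0 < c ∧ ∀ g : ℤ[X], Irreducible g → 1 < M g → M g < 1 + c →
    g ∣ g.reverse := by
  have hc0 := c0_pos
  have hl2 : 0 < Real.log 2 := Real.log_pos (by norm_num)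
  have hE : 0 < c0 / (2 * Real.log 2 ^ 5) := by positivity
  refine ⟨Real.exp (c0 / (2 * Real.log 2 ^ 5)) - 1, ?_, ?_⟩
  · have := Real.add_one_lt_exp hE.ne'
    linarith
  · intro g hirr h1 h2
    have hg : g ≠ 0 := hirr.ne_zero
    have hr : g.reverse ≠ 0 := by rwa [ne_eq, Polynomial.reverse_eq_zero]
    have hMr : M g.reverse = M g := M_reverse hg
    have hDD : DD g g.reverse = 0 := by
      unfold DD
      rw [Real.circleAverage_congr_sphere (f₂ := fun _ => (0 : ℝ))]
      · simp [Real.circleAverage]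
      · intro z hz
        have hz1 : ‖z‖ = 1 := by simpa using hz
        simp only
        rw [norm_eval_reverse g z hz1]
        simp
    rcases rigidity g g.reverse hg hr with ⟨P, Q, hP, hQ, hPQ⟩ | h
    · have hprime : Prime g := hirr.prime
      have hdvd : g ∣ g.reverse * Q := ⟨P, hPQ.symm⟩
      rcases hprime.dvd_or_dvd hdvd with h3 | h3
      · exact h3
      · exfalso
        have hQ0 : Q ≠ 0 := by
          rintro rfl
          unfold cx at hQ
          rw [Polynomial.map_zero, Polynomial.mahlerMeasure_zero] at hQ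
          norm_num at hQ
        have h4 := M_le_of_dvd hQ0 h3
        have h5 : M Q = 1 := hQ
        linarith
    · exfalso
      rw [hDD] at h
      have h3 : Real.log (cx g).mahlerMeasure = Real.log (M g) := rfl
      have h4 : Real.log (cx g.reverse).mahlerMeasure = Real.log (M g) := by
        rw [← hMr]; rfl
      rw [h3, h4] at h
      have h5 : Real.log (M g) < c0 / (2 * Real.log 2 ^ 5) := by
        rw [Real.log_lt_iff_lt_exp (by linarith)]
        linarith
      have h6 : c0 / ((1 + 0) * Real.log (2 + 0) ^ 5) = 2 * (c0 / (2 * Real.log 2 ^ 5)) := by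
        rw [add_zero, add_zero, one_mul]
        field_simp
      linarith

end Pool.Agent.Lib.MP_7ab245_nt.Solv
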