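import Mathlib
import Pool.Agent.Lib.MP_7ab245_nt.Solv.F.Mul

/-! Module SF-SmallDeg. In bounded degree the Mahler measures `> 1` are bounded away from 1.
PROOF. Northcott: `Polynomial.finite_mahlerMeasure_le n₀ 2`
(`Mathlib/NumberTheory/MahlerMeasure.lean`): finitely many `g ∈ ℤ[X]` have degree `≤ n₀` and `M g ≤ 2`. Let
`c` be the minimum of 1 and of the finitely many positive numbers `M g - 1`. -/

set_option autoImplicit false

open Polynomial

namespace Pool.Agent.Lib.MP_7ab245_nt.Solv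

theorem small_degree (n₀ : ℕ) : ∃ c : ℝ, 0 < c ∧ ∀ g : ℤ[X], g.natDegree ≤ n₀ → 1 < M g →
    1 + c ≤ M g := by
  classical
  have hfin := Polynomial.finite_mahlerMeasure_le n₀ 2
  set S : Set ℤ[X] := {p : ℤ[X] | p.natDegree ≤ n₀ ∧
    (p.map (Int.castRingHom ℂ)).mahlerMeasure ≤ (2 : NNReal)} with hS
  have hfin' : (S ∩ {p | 1 < M p}).Finite := hfin.inter_of_left _
  set F : Finset ℤ[X] := hfin'.toFinset
  have hF : ∀ g : ℤ[X], g ∈ F ↔ (g ∈ S ∧ 1 < M g) := by
    intro g
    simp [F]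
  set T : Finset ℝ := insert 1 (F.image (fun g => M g - 1))
  have hT : T.Nonempty := ⟨1, by simp [T]⟩
  refine ⟨T.min' hT, ?_, ?_⟩
  · rw [Finset.lt_min'_iff]
    intro y hy
    rcases Finset.mem_insert.mp hy with rfl | hy
    · norm_num
    · obtain ⟨g, hg, rfl⟩ := Finset.mem_image.mp hy
      have := ((hF g).mp hg).2
      linarith
  · intro g hg h1
    by_cases h2 : M g ≤ 2
    · have hgF : g ∈ F := (hF g).mpr ⟨⟨hg, by simpa [M] using h2⟩, h1⟩
      have := Finset.min'_le T (M g - 1) (Finset.mem_insert_of_mem (Finset.mem_image_of_mem _ hgF))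
      linarith
    · have := Finset.min'_le T 1 (Finset.mem_insert_self _ _)
      push Not at h2
      linarith

end Pool.Agent.Lib.MP_7ab245_nt.Solv
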