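import Mathlib
import Pool.Agent.Lib.MP_7ab245_nt.Solv.F.Core
import Pool.Agent.Lib.MP_7ab245_nt.Solv.F.SmallDeg
import Pool.Agent.Lib.MP_7ab245_nt.Solv.F.NonRecip
import Pool.Agent.Lib.MP_7ab245_nt.Solv.F.Inst
import Pool.Agent.Lib.MP_7ab245_nt.Solv.SX.X22
import Pool.Agent.Lib.MP_7ab245_nt.Solv.SX.X23

/-! The theorem on Galois groups with small composition factors. -/

set_option autoImplicit false

open Polynomial

namespace Pool.Agent.Lib.MP_7ab245_nt.Solv

/-- The minimal polynomial of minimal degree and its trace polynomial. -/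
theorem exists_pair (n₀ : ℕ) : ∃ c : ℝ, 0 < c ∧ c ≤ 1 / 2 ∧ ∀ f : ℤ[X], 1 < M f → M f < 1 + c →
    ∃ g h : ℤ[X], MinPoly (rat f).SplittingField (M f) g ∧ n₀ ≤ g.natDegree ∧
      g ∣ g.reverse ∧ h.Monic ∧ Irreducible h ∧ recip h = g ∧
      (h.map (algebraMap ℤ (rat f).SplittingField)).Splits ∧
      (∀ x : (rat f).SplittingField, aeval x g = 0 → aeval (x + x⁻¹) h = 0) ∧
      ∀ y : (rat f).SplittingField, aeval y h = 0 →
        ∃ x : (rat f).SplittingField, aeval x g = 0 ∧ y = x + x⁻¹ := by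
  obtain ⟨c₁, hc₁, hsmall⟩ := small_degree n₀
  obtain ⟨c₂, hc₂, hnr⟩ := nonrecip
  set c : ℝ := min (min c₁ c₂) (1 / 2) with hc
  have hcpos : 0 < c := by
    rw [hc]; exact lt_min (lt_min hc₁ hc₂) (by norm_num)
  have hcc₁ : c ≤ c₁ := (min_le_left _ _).trans (min_le_left _ _)
  have hcc₂ : c ≤ c₂ := (min_le_left _ _).trans (min_le_right _ _)
  have hc2 : c ≤ 1 / 2 := min_le_right _ _
  refine ⟨c, hcpos, hc2, ?_⟩
  intro f hf1 hf2
  have hlt2 : M f < 2 := by linarith
  obtain ⟨g, hg⟩ := exists_minPoly (rat f).SplittingField f hf1 hlt2 (splits_self f)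
  have hgn : n₀ ≤ g.natDegree := by
    by_contra hcon
    have := hsmall g (by omega) hg.one_lt
    have := hg.le
    linarith
  have hgr : g ∣ g.reverse := hnr g hg.irr hg.one_lt (by have := hg.le; linarith)
  obtain ⟨h, hm, hi, hrec, hspl, hto, hfrom⟩ := exists_trace hg hlt2 hgr
  exact ⟨g, h, hg, hgn, hgr, hm, hi, hrec, hspl, hto, hfrom⟩

/-- minimal normal subgroups of minimal normal subgroups are not commutative if there is no
nontrivial solvable normal subgroup -/
theorem nonAb_of_noSolv {Γ : Type*} [Group Γ]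
    (hsol : ∀ N : Subgroup Γ, N.Normal → Group.IsSolvable N → N = ⊥)
    (N : Subgroup Γ) (T : Subgroup N) (hN : SX.MinNormal N) (hT : SX.MinNormal T) :
    ∃ a b : T, a * b ≠ b * a := by
  by_contra hcon
  push Not at hcon
  have hT' := SX.minIn_map N T hT
  set T' : Subgroup Γ := T.map N.subtype with hT'def
  have hab : ∀ a ∈ T', ∀ b ∈ T', a * b = b * a := by
    rintro a ⟨a', ha', rfl⟩ b ⟨b', hb', rfl⟩
    have := hcon ⟨a', ha'⟩ ⟨b', hb'⟩
    have h2 := congrArg (fun z : T => N.subtype (z : N)) this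
    simpa using h2
  have hcj : ∀ s t : Γ, SX.cj t T' ≤ Subgroup.centralizer (SX.cj s T' : Set Γ) := by
    intro s t b hb
    rw [Subgroup.mem_centralizer_iff]
    intro a ha
    by_cases hst : SX.cj s T' = SX.cj t T'
    · have ha' : a ∈ SX.cj t T' := hst ▸ ha
      rw [SX.mem_cj'] at ha' hb
      have := hab _ ha' _ hb
      have h3 : t⁻¹ * (a * b) * t = t⁻¹ * (b * a) * t := by
        calc t⁻¹ * (a * b) * t = (t⁻¹ * a * t) * (t⁻¹ * b * t) := by group
          _ = (t⁻¹ * b * t) * (t⁻¹ * a * t) := this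
          _ = _ := by group
      exact mul_left_cancel (mul_right_cancel h3)
    · exact SX.comm_of_ne (SX.minIn_cj hN.1 hT' s) (SX.minIn_cj hN.1 hT' t) hst a ha b hb
  have hNc : ∀ s : Γ, N ≤ Subgroup.centralizer (SX.cj s T' : Set Γ) := by
    intro s
    conv_lhs => rw [← SX.iSup_cj hN hT']
    exact iSup_le (hcj s)
  have hNN : N ≤ Subgroup.centralizer (N : Set Γ) := by
    conv_lhs => rw [← SX.iSup_cj hN hT']
    exact iSup_le fun s => Subgroup.le_centralizer_iff.1 (hNc s)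
  have hcomm : ∀ a b : N, a * b = b * a := by
    intro a b
    apply Subtype.ext
    have := Subgroup.mem_centralizer_iff.1 (hNN b.2) a a.2
    exact this
  have hsolN : Group.IsSolvable N := Group.isSolvable_of_comm hcomm
  exact hN.2.1 (hsol N hN.1 hsolN)

theorem coreX (κ : ℕ) : ∃ n₀ : ℕ, ∀ (Ω : Type) [Field Ω] [NumberField Ω] [IsGalois ℚ Ω] (B : ℝ)
    (g h : ℤ[X]), MinPoly Ω B g → B < 2 → n₀ ≤ g.natDegree → g ∣ g.reverse → h.Monic →
    Irreducible h → (h.map (algebraMap ℤ Ω)).Splits →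
    (∀ x : Ω, aeval x g = 0 → aeval (x + x⁻¹) h = 0) →
    (∀ y : Ω, aeval y h = 0 → ∃ x : Ω, aeval x g = 0 ∧ y = x + x⁻¹) →
    ∀ (N : Subgroup (rat h).Gal) (T : Subgroup N), SX.MinNormal N → SX.MinNormal T →
      (∃ a b : T, a * b ≠ b * a) → g.natDegree ^ κ < Nat.card (MulAut T) := by
  obtain ⟨K, n₁, hX⟩ := SX.groupX κ
  have hB : ∀ r : ℕ, ∃ n : ℕ, 1 ≤ r → ∀ (Ω : Type) [Field Ω] [NumberField Ω]
    [IsGalois ℚ Ω] (ι : Ω →+* ℂ) (B : ℝ) (g : ℤ[X]), MinPoly Ω B g → B < 2 → n ≤ g.natDegree →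
    ∀ (x : Ω), aeval x g = 0 → ∀ t : Fin r → (Ω ≃ₐ[ℚ] Ω),
    LinearIndependent ℚ (fun i => rep (Ω ≃ₐ[ℚ] Ω) (t i) (lg ι x)) →
    K * g.natDegree ^ (r - 1) < Nat.card (Set.range fun s : Ω ≃ₐ[ℚ] Ω => fun i =>
      rep (Ω ≃ₐ[ℚ] Ω) (s * t i) (lg ι x)) := by
    intro r
    by_cases hr : 1 ≤ r
    · obtain ⟨n, hn⟩ := groupB r K hr
      exact ⟨n, fun _ => hn⟩
    · exact ⟨0, fun h => absurd h hr⟩
  choose n₂ hn₂ using hB
  refine ⟨n₁ + ∑ r ∈ Finset.range (κ + 7), n₂ r, ?_⟩
  intro Ω _ _ _ B g h hg hB2 hn hgr hm hi hs hto hfrom N T hN hT hna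
  by_contra hcon
  push Not at hcon
  obtain ⟨x, hx⟩ : ∃ x : Ω, aeval x g = 0 := by
    have hdeg : (g.map (algebraMap ℤ Ω)).degree ≠ 0 := by
      rw [hg.monic.degree_map]
      intro h0
      have h1 := hg.monic.degree_le_zero_iff_eq_one.1 h0.le
      exact hg.irr.not_isUnit (h1 ▸ isUnit_one)
    obtain ⟨x, hx⟩ := hg.splits.exists_eval_eq_zero hdeg
    exact ⟨x, by rwa [eval_map_algebraMap] at hx⟩
  obtain ⟨ι⟩ : Nonempty (Ω →+* ℂ) := inferInstance
  obtain ⟨π, hπ1, hπ2⟩ := exists_isQ ι hg hB2 hgr hm.ne_zero hs hto hfrom x hx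
  have horb : SX.osz (rep (Ω ≃ₐ[ℚ] Ω)) (lg ι x) = g.natDegree := card_orbit_lg ι hg hB2 x hx
  obtain ⟨r, hr1, hr2, u, hu, hcard⟩ := hX (rep (Ω ≃ₐ[ℚ] Ω)) (lg ι x) π ⟨hπ1, hπ2⟩
    (by rw [horb]; omega) N T hN hT (by
      obtain ⟨a, b, hab⟩ := hna
      exact fun h => hab (h a b)) (by rw [horb]; exact hcon)
  have hle : n₂ r ≤ ∑ r ∈ Finset.range (κ + 7), n₂ r :=
    Finset.single_le_sum (f := n₂) (fun _ _ => Nat.zero_le _) (Finset.mem_range.2 (by omega))
  have := hn₂ r (by omega) Ω ι B g hg hB2 (by omega) x hx u hu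
  rw [horb] at hcard
  exact absurd hcard (not_le.2 this)

private theorem surj_gal_aux {K : Type} [Field K] (p q : K[X])
    (hs : (q.map (algebraMap K p.SplittingField)).Splits) :
    ∃ φ : p.Gal →* q.Gal, Function.Surjective φ := by
  have : Fact ((q.map (algebraMap K p.SplittingField)).Splits) := ⟨hs⟩
  have hN : Normal K p.SplittingField := SplittingField.instNormal p
  exact ⟨Polynomial.Gal.restrict q p.SplittingField,
    Polynomial.Gal.restrict_surjective q p.SplittingField⟩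

theorem exists_surj_gal (f h : ℤ[X])
    (hs : (h.map (Int.castRingHom (rat f).SplittingField)).Splits) :
    ∃ φ : (rat f).Gal →* (rat h).Gal, Function.Surjective φ := by
  apply surj_gal_aux (rat f) (rat h)
  have e : (rat h).map (algebraMap ℚ (rat f).SplittingField) =
      h.map (Int.castRingHom (rat f).SplittingField) := by
    have e1 := Polynomial.map_map (Int.castRingHom ℚ) (algebraMap ℚ (rat f).SplittingField) h
    refine e1.trans ?_
    congr 1
  exact e ▸ hs

private theorem faithful_action {K : Type} [Field K] (q : K[X]) :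
    ∃ (Y : Type) (_ : MulAction q.Gal Y), Finite Y ∧ FaithfulSMul q.Gal Y ∧
      Nat.card Y ≤ q.natDegree := by
  classical
  have : Fact ((q.map (algebraMap K q.SplittingField)).Splits) := ⟨SplittingField.splits q⟩
  refine ⟨q.rootSet q.SplittingField, Polynomial.Gal.galAction q q.SplittingField,
    inferInstance, ⟨fun {a b} hab => ?_⟩, ?_⟩
  · apply Polynomial.Gal.galActionHom_injective q q.SplittingField
    ext y
    exact congrArg Subtype.val (hab y)
  · have h1 : Nat.card (q.rootSet q.SplittingField) =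
        (q.aroots q.SplittingField).toFinset.card := by
      rw [Polynomial.rootSet_def]
      exact Nat.card_eq_card_toFinset _ |>.trans (by simp)
    rw [h1]
    calc (q.aroots q.SplittingField).toFinset.card ≤
        Multiset.card (q.aroots q.SplittingField) := Multiset.toFinset_card_le _
      _ ≤ (q.map (algebraMap K q.SplittingField)).natDegree := Polynomial.card_roots' _
      _ ≤ q.natDegree := Polynomial.natDegree_map_le

theorem finalX (κ : ℕ) : ∃ c : ℝ, 0 < c ∧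
    (∀ f : ℤ[X], 1 < M f → SX.SmallFactors κ (rat f).Gal → 1 + c ≤ M f) ∧
    (∀ f : ℤ[X], 1 < M f → M f < 1 + c → ∃ h : ℤ[X], h.Monic ∧ Irreducible h ∧
      (h.map (Int.castRingHom (rat f).SplittingField)).Splits ∧
      1 < M (recip h) ∧ M (recip h) ≤ M f ∧
      (∀ N : Subgroup (rat h).Gal, N.Normal → Group.IsSolvable N → N = ⊥) ∧
      ∀ (N : Subgroup (rat h).Gal) (T : Subgroup N), SX.MinNormal N → SX.MinNormal T →
        (∃ a b : T, a * b ≠ b * a) ∧ (2 * h.natDegree) ^ κ < Nat.card (MulAut T)) := by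
  obtain ⟨n₀, hcore⟩ := coreF
  obtain ⟨n₁, hcoreX⟩ := coreX κ
  obtain ⟨c, hcpos, hc2, hpair⟩ := exists_pair (max n₀ n₁)
  have part2 : ∀ f : ℤ[X], 1 < M f → M f < 1 + c → ∃ h : ℤ[X], h.Monic ∧ Irreducible h ∧
      (h.map (Int.castRingHom (rat f).SplittingField)).Splits ∧
      1 < M (recip h) ∧ M (recip h) ≤ M f ∧
      (∀ N : Subgroup (rat h).Gal, N.Normal → Group.IsSolvable N → N = ⊥) ∧
      ∀ (N : Subgroup (rat h).Gal) (T : Subgroup N), SX.MinNormal N → SX.MinNormal T →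
        (∃ a b : T, a * b ≠ b * a) ∧ (2 * h.natDegree) ^ κ < Nat.card (MulAut T) := by
    intro f hf1 hf2
    have hlt2 : M f < 2 := by linarith
    obtain ⟨g, h, hg, hgn, hgr, hm, hi, hrec, hspl, hto, hfrom⟩ := hpair f hf1 hf2
    have hsol := hcore (rat f).SplittingField (M f) g h hg hlt2 (le_trans (le_max_left _ _) hgn)
      hgr hm hi hspl hto hfrom
    refine ⟨h, hm, hi, ?_, ?_, ?_, ?_, ?_⟩
    · exact hspl
    · rw [hrec]; exact hg.one_lt
    · rw [hrec]; exact hg.le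
    · exact hsol
    · intro N T hN hT
      have hna := nonAb_of_noSolv hsol N T hN hT
      have hlt := hcoreX (rat f).SplittingField (M f) g h hg hlt2
        (le_trans (le_max_right _ _) hgn) hgr hm hi hspl hto hfrom N T hN hT hna
      have hdeg := (recip_monic h hm).2
      rw [hrec] at hdeg
      rw [hdeg] at hlt
      exact ⟨hna, hlt⟩
  refine ⟨c, hcpos, ?_, part2⟩
  intro f hf1 hsf
  by_contra hcon
  push Not at hcon
  obtain ⟨h, hm, hi, hspl, h1, h2, hsol, hT⟩ := part2 f hf1 hcon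
  have hdeg1 : (⊤ : Subgroup (rat h).Gal) ≠ ⊥ := by
    intro htop
    have hdeg := natDegree_eq_one h hm hi htop
    obtain ⟨a, ha⟩ : ∃ a : ℤ, h = X - C a := by
      refine ⟨-h.coeff 0, ?_⟩
      have := Polynomial.eq_X_add_C_of_natDegree_le_one (p := h) (by omega)
      have hl : h.coeff 1 = 1 := by
        have := hm.coeff_natDegree
        rwa [hdeg] at this
      rw [hl] at this
      rw [this]
      simp
    rw [ha] at h1 h2
    have := M_recip_X_sub_C a h1
    linarith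
  have hnt : Nontrivial (rat h).Gal := by
    by_contra hno
    have hsub : Subsingleton (rat h).Gal := not_nontrivial_iff_subsingleton.1 hno
    exact hdeg1 (Subsingleton.elim _ _)
  obtain ⟨φ, hφ⟩ := exists_surj_gal f h hspl
  obtain ⟨Y, hYact, hYfin, hYf, hYcard⟩ := faithful_action (rat h)
  obtain ⟨N, hN, T, hT', hnc, hle⟩ := SX.exists_small κ φ hφ hsol hsf (Y := Y)
  have hlt := (hT N T hN hT').2
  have hdeg : (rat h).natDegree ≤ h.natDegree := Polynomial.natDegree_map_le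
  have h3 : Nat.card Y ^ κ ≤ (2 * h.natDegree) ^ κ :=
    Nat.pow_le_pow_left (by omega) κ
  omega

end Pool.Agent.Lib.MP_7ab245_nt.Solv
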