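import Mathlib
import Pool.Agent.Lib.MP_7ab245_nt.Solv.F.FinalX
import Pool.Agent.Lib.MP_7ab245_nt.Solv.F.Delta
import Pool.Agent.Lib.MP_7ab245_nt.Solv.F.Bridge2
import Pool.Agent.Lib.MP_7ab245_nt.Solv.F.ASField

/-! The reduction of Lehmer's problem to almost simple groups. -/

set_option autoImplicit false

open Polynomial

namespace Pool.Agent.Lib.MP_7ab245_nt.Solv

private theorem asOver_gen {K : Type} [Field K] [CharZero K] (p : K[X]) (θ : p.SplittingField)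
    (n κ : ℕ) {G W : Type} [Group G] [Finite G] [AddCommGroup W] [Module ℚ W]
    (ρ : Representation ℚ G W) (w : W) (φ : G →* p.Gal) (hφ : Function.Surjective φ)
    (hQ : ∀ s, φ s = 1 ↔ ∀ t, ρ (s * t) w = ρ t w ∨ ρ (s * t) w = -ρ t w)
    (hkey : ∀ s t, (φ s) θ = (φ t) θ ↔ (ρ s w = ρ t w ∨ ρ s w = -ρ t w))
    (hn : SX.osz ρ w = 2 * n) {n₀ R D : ℕ}
    (hAS : ∀ {G Γ W : Type} [Group G] [Finite G] [Group Γ]
    [AddCommGroup W] [Module ℚ W] (ρ : Representation ℚ G W) (w : W) (φ : G →* Γ),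
    SX.IsQ ρ w φ → n₀ ≤ SX.osz ρ w → SX.HypB ρ w R D →
    (∀ N : Subgroup Γ, N.Normal → Group.IsSolvable N → N = ⊥) →
    (∀ S : Subgroup Γ, (∀ g, SX.SameL ρ w g 1 → φ g ∈ S) → (∃ g, φ g ∈ S ∧ ¬ SX.SameL ρ w g 1) →
      2 * S.index ^ κ ≤ SX.osz ρ w) ∧
    ∃ T : Subgroup Γ, SX.NonAb T ∧
      (∀ R' : Subgroup Γ, R' ≤ T → (∀ t ∈ T, ∀ x ∈ R', t * x * t⁻¹ ∈ R') → R' = ⊥ ∨ R' = T) ∧
      (∃ g, φ g ∈ T ∧ ¬ SX.SameL ρ w g 1) ∧ SX.osz ρ w ^ κ < Nat.card (MulAut T) ∧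
      (∀ g, SX.SameL ρ w g 1 → SX.Nrm T (φ g)) ∧
      ∀ g, SX.Nrm T (φ g) →
        (∀ t s, φ t ∈ T → SX.Nrm T (φ s) → SX.SameL ρ w (g * t * s) (t * g * s)) →
        ∀ s, SX.Nrm T (φ s) → SX.SameL ρ w (g * s) s)
    (hn₀ : n₀ ≤ SX.osz ρ w) (hB : SX.HypB ρ w R D)
    (hsol : ∀ N : Subgroup p.Gal, N.Normal → Group.IsSolvable N → N = ⊥) : ASOver K θ n κ := by
  obtain ⟨h1, T, hna, hsimple, hmove, hcard, hstab, hcent⟩ :=
    hAS ρ w φ ⟨hφ, hQ⟩ hn₀ hB hsol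
  have hN : Normal K p.SplittingField := SplittingField.instNormal p
  have hG : IsGalois K p.SplittingField := ⟨⟩
  exact asOver_of_group θ n κ ρ w φ hφ hkey hn h1 T hna hsimple hmove hcard hstab hcent

theorem coreAS (κ : ℕ) : ∃ n₀ : ℕ, ∀ (Ω : Type) [Field Ω] [NumberField Ω] [IsGalois ℚ Ω] (B : ℝ)
    (g h : ℤ[X]), MinPoly Ω B g → B < 2 → n₀ ≤ g.natDegree → g ∣ g.reverse → h.Monic →
    Irreducible h → recip h = g → (h.map (algebraMap ℤ Ω)).Splits →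
    (∀ y : Ω, aeval y h = 0 → ∃ x : Ω, aeval x g = 0 ∧ y = x + x⁻¹) →
    (∀ N : Subgroup (rat h).Gal, N.Normal → Group.IsSolvable N → N = ⊥) →
    ∀ θ : (rat h).SplittingField, aeval θ h = 0 → ASOver ℚ θ h.natDegree κ := by
  obtain ⟨n₁, R, D, hD, hAS⟩ := SX.groupAS κ
  have hB : ∀ r : ℕ, ∃ n : ℕ, 1 ≤ r → ∀ (Ω : Type) [Field Ω] [NumberField Ω]
    [IsGalois ℚ Ω] (ι : Ω →+* ℂ) (B : ℝ) (g : ℤ[X]), MinPoly Ω B g → B < 2 → n ≤ g.natDegree →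
    ∀ (x : Ω), aeval x g = 0 → ∀ t : Fin r → (Ω ≃ₐ[ℚ] Ω),
    LinearIndependent ℚ (fun i => rep (Ω ≃ₐ[ℚ] Ω) (t i) (lg ι x)) →
    g.natDegree ^ (r * D - 1) < Nat.card (Set.range fun s : Ω ≃ₐ[ℚ] Ω => fun i =>
      rep (Ω ≃ₐ[ℚ] Ω) (s * t i) (lg ι x)) ^ D := by
    intro r
    by_cases hr : 1 ≤ r
    · obtain ⟨n, hn⟩ := groupBD r D hr hD
      exact ⟨n, fun _ => hn⟩
    · exact ⟨0, fun h => absurd h hr⟩
  choose n₂ hn₂ using hB
  refine ⟨n₁ + ∑ r ∈ Finset.range (R + 1), n₂ r, ?_⟩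
  intro Ω _ _ _ B g h hg hB2 hn hgr hm hi hrec hs hfrom hsol θ hθ
  obtain ⟨ι⟩ : Nonempty (Ω →+* ℂ) := inferInstance
  obtain ⟨π, hπ, hπ2⟩ := exists_bridge ι hg hB2 hgr hm hi hs hfrom
  obtain ⟨x, hx, hkey, hQ⟩ := hπ2 θ hθ
  have horb : SX.osz (rep (Ω ≃ₐ[ℚ] Ω)) (lg ι x) = g.natDegree := card_orbit_lg ι hg hB2 x hx
  have hdeg : g.natDegree = 2 * h.natDegree := by
    rw [← hrec]
    exact (recip_monic h hm).2
  have hHyp : SX.HypB (rep (Ω ≃ₐ[ℚ] Ω)) (lg ι x) R D := by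
    intro r hr1 hrR u hu
    have hle : n₂ r ≤ ∑ r ∈ Finset.range (R + 1), n₂ r :=
      Finset.single_le_sum (f := n₂) (fun _ _ => Nat.zero_le _) (Finset.mem_range.2 (by omega))
    rw [horb]
    exact hn₂ r hr1 Ω ι B g hg hB2 (by omega) x hx u hu
  have key := asOver_gen (rat h) θ h.natDegree κ (rep (Ω ≃ₐ[ℚ] Ω)) (lg ι x) π hπ hQ hkey
    (by rw [horb, hdeg]) hAS (by rw [horb]; omega) hHyp hsol
  convert key
  exact Subsingleton.elim _ _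

/-- Lehmer's problem: small composition factors, and reduction to almost simple groups. -/
theorem finalAS (κ : ℕ) : ∃ c : ℝ, 0 < c ∧
    (∀ f : ℤ[X], 1 < M f → SX.SmallFactors κ (rat f).Gal → 1 + c ≤ M f) ∧
    (∀ f : ℤ[X], 1 < M f → M f < 1 + c → ∃ h : ℤ[X], h.Monic ∧ Irreducible h ∧
      (h.map (Int.castRingHom (rat f).SplittingField)).Splits ∧
      1 < M (recip h) ∧ M (recip h) ≤ M f ∧
      (∀ N : Subgroup (rat h).Gal, N.Normal → Group.IsSolvable N → N = ⊥) ∧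
      (∀ (N : Subgroup (rat h).Gal) (T : Subgroup N), SX.MinNormal N → SX.MinNormal T →
        (∃ a b : T, a * b ≠ b * a) ∧ (2 * h.natDegree) ^ κ < Nat.card (MulAut T)) ∧
      ∀ θ : (rat h).SplittingField, aeval θ h = 0 → ASOver ℚ θ h.natDegree κ) := by
  obtain ⟨c₁, hc₁, hI, -⟩ := finalX κ
  obtain ⟨n₀, hcore⟩ := coreF
  obtain ⟨n₁, hcoreX⟩ := coreX κ
  obtain ⟨n₂, hcoreAS⟩ := coreAS κ
  obtain ⟨c₂, hc₂, hc2, hpair⟩ := exists_pair (max n₀ (max n₁ n₂))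
  refine ⟨min c₁ c₂, lt_min hc₁ hc₂, ?_, ?_⟩
  · intro f hf1 hsf
    have := hI f hf1 hsf
    have := min_le_left c₁ c₂
    linarith
  · intro f hf1 hf2
    have hmin := min_le_right c₁ c₂
    have hlt2 : M f < 2 := by linarith
    obtain ⟨g, h, hg, hgn, hgr, hm, hi, hrec, hspl, hto, hfrom⟩ := hpair f hf1 (by linarith)
    have hsol := hcore (rat f).SplittingField (M f) g h hg hlt2 (le_trans (le_max_left _ _) hgn)
      hgr hm hi hspl hto hfrom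
    refine ⟨h, hm, hi, ?_, ?_, ?_, ?_, ?_, ?_⟩
    · exact hspl
    · rw [hrec]; exact hg.one_lt
    · rw [hrec]; exact hg.le
    · exact hsol
    · intro N T hN hT
      have hna := nonAb_of_noSolv hsol N T hN hT
      have hlt := hcoreX (rat f).SplittingField (M f) g h hg hlt2
        (le_trans (le_trans (le_max_left _ _) (le_max_right _ _)) hgn) hgr hm hi hspl hto hfrom
        N T hN hT hna
      have hdeg := (recip_monic h hm).2
      rw [hrec] at hdeg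
      rw [hdeg] at hlt
      exact ⟨hna, hlt⟩
    · exact hcoreAS (rat f).SplittingField (M f) g h hg hlt2
        (le_trans (le_trans (le_max_right _ _) (le_max_right _ _)) hgn) hgr hm hi hrec hspl hfrom
        hsol

end Pool.Agent.Lib.MP_7ab245_nt.Solv
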