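import Mathlib
import Pool.Agent.Lib.MP_7ab245_nt.Solv.F.FinalAS
import Pool.Agent.Lib.MP_7ab245_nt.Solv.GY.Y25

/-! The Galois group of `h` has exactly one minimal normal subgroup. -/

set_option autoImplicit false

open Polynomial

namespace Pool.Agent.Lib.MP_7ab245_nt.Solv

private theorem hb_all (D : ℕ) (hD : 1 ≤ D) (r : ℕ) : ∃ n : ℕ, 1 ≤ r → ∀ (Ω : Type) [Field Ω]
    [NumberField Ω] [IsGalois ℚ Ω] (ι : Ω →+* ℂ) (B : ℝ) (g : ℤ[X]), MinPoly Ω B g → B < 2 →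
    n ≤ g.natDegree → ∀ (x : Ω), aeval x g = 0 → ∀ t : Fin r → (Ω ≃ₐ[ℚ] Ω),
    LinearIndependent ℚ (fun i => rep (Ω ≃ₐ[ℚ] Ω) (t i) (lg ι x)) →
    g.natDegree ^ (r * D - 1) < Nat.card (Set.range fun s : Ω ≃ₐ[ℚ] Ω => fun i =>
      rep (Ω ≃ₐ[ℚ] Ω) (s * t i) (lg ι x)) ^ D := by
  by_cases hr : 1 ≤ r
  · obtain ⟨n, hn⟩ := groupBD r D hr hD
    exact ⟨n, fun _ => hn⟩
  · exact ⟨0, fun h => absurd h hr⟩

theorem coreU : ∃ n₀ : ℕ, ∀ (Ω : Type) [Field Ω] [NumberField Ω] [IsGalois ℚ Ω] (B : ℝ)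
    (g h : ℤ[X]), MinPoly Ω B g → B < 2 → n₀ ≤ g.natDegree → g ∣ g.reverse → h.Monic →
    Irreducible h → recip h = g → (h.map (algebraMap ℤ Ω)).Splits →
    (∀ y : Ω, aeval y h = 0 → ∃ x : Ω, aeval x g = 0 ∧ y = x + x⁻¹) →
    (∀ N : Subgroup (rat h).Gal, N.Normal → Group.IsSolvable N → N = ⊥) →
    ∃! N : Subgroup (rat h).Gal, SX.MinNormal N := by
  obtain ⟨n₁, hY⟩ := GY.groupY 3 le_rfl
  choose n₂ hn₂ using hb_all 12 (by norm_num)
  refine ⟨n₁ + ∑ r ∈ Finset.range 10, n₂ r, ?_⟩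
  intro Ω _ _ _ B g h hg hB2 hn hgr hm hi hrec hs hfrom hsol
  obtain ⟨ι⟩ : Nonempty (Ω →+* ℂ) := inferInstance
  obtain ⟨π, hπ, hπ2⟩ := exists_bridge ι hg hB2 hgr hm hi hs hfrom
  have hspl : ((rat h).map (algebraMap ℚ (rat h).SplittingField)).Splits :=
    SplittingField.splits (rat h)
  obtain ⟨θ, hθ⟩ : ∃ θ : (rat h).SplittingField, aeval θ h = 0 := by
    have hirr : (rat h).degree ≠ 0 := by
      have h1 : (rat h).degree = h.degree := by
        rw [rat]; exact degree_map_eq_of_injective (Int.castRingHom ℚ).injective_int h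
      rw [h1]
      intro h0
      have h2 : h = 1 := by
        have h3 : h.natDegree = 0 := natDegree_eq_of_degree_eq_some h0
        exact (hm.natDegree_eq_zero).1 h3
      rw [h2] at hi
      exact hi.not_isUnit isUnit_one
    obtain ⟨θ, hθ⟩ := hspl.exists_eval_eq_zero (by rwa [degree_map])
    refine ⟨θ, ?_⟩
    have h2 : aeval θ (rat h) = 0 := by
      rw [aeval_def, ← eval_map]
      exact hθ
    have h3 : aeval θ (h.map (algebraMap ℤ ℚ)) = 0 := h2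
    rwa [aeval_map_algebraMap] at h3
  obtain ⟨x, hx, hkey, hQ⟩ := hπ2 θ hθ
  have horb : SX.osz (rep (Ω ≃ₐ[ℚ] Ω)) (lg ι x) = g.natDegree := card_orbit_lg ι hg hB2 x hx
  have hHB : GY.HB (rep (Ω ≃ₐ[ℚ] Ω)) (lg ι x) (3 + 6) (4 * 3) := by
    intro r hr1 hrR u hu
    have hle : n₂ r ≤ ∑ r ∈ Finset.range 10, n₂ r :=
      Finset.single_le_sum (f := n₂) (fun _ _ => Nat.zero_le _) (Finset.mem_range.2 (by omega))
    rw [horb]
    exact (hn₂ r (by omega) Ω ι B g hg hB2 (by omega) x hx u hu).le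
  exact (hY (rep (Ω ≃ₐ[ℚ] Ω)) (lg ι x) π ⟨hπ, hQ⟩ (by rw [horb]; omega) hsol hHB).1

/-- `finalAS` together with the uniqueness of the minimal normal subgroup of the Galois group. -/
theorem finalU (κ : ℕ) : ∃ c : ℝ, 0 < c ∧
    (∀ f : ℤ[X], 1 < M f → SX.SmallFactors κ (rat f).Gal → 1 + c ≤ M f) ∧
    (∀ f : ℤ[X], 1 < M f → M f < 1 + c → ∃ h : ℤ[X], h.Monic ∧ Irreducible h ∧
      (h.map (Int.castRingHom (rat f).SplittingField)).Splits ∧
      1 < M (recip h) ∧ M (recip h) ≤ M f ∧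
      (∀ N : Subgroup (rat h).Gal, N.Normal → Group.IsSolvable N → N = ⊥) ∧
      (∃! N : Subgroup (rat h).Gal, SX.MinNormal N) ∧
      (∀ (N : Subgroup (rat h).Gal) (T : Subgroup N), SX.MinNormal N → SX.MinNormal T →
        (∃ a b : T, a * b ≠ b * a) ∧ (2 * h.natDegree) ^ κ < Nat.card (MulAut T)) ∧
      ∀ θ : (rat h).SplittingField, aeval θ h = 0 → ASOver ℚ θ h.natDegree κ) := by
  obtain ⟨c₁, hc₁, hI, -⟩ := finalX κ
  obtain ⟨n₀, hcore⟩ := coreF
  obtain ⟨n₁, hcoreX⟩ := coreX κ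
  obtain ⟨n₂, hcoreAS⟩ := coreAS κ
  obtain ⟨n₃, hcoreU⟩ := coreU
  obtain ⟨c₂, hc₂, hc2, hpair⟩ := exists_pair (max n₀ (max n₁ (max n₂ n₃)))
  refine ⟨min c₁ c₂, lt_min hc₁ hc₂, ?_, ?_⟩
  · intro f hf1 hsf
    have := hI f hf1 hsf
    have := min_le_left c₁ c₂
    linarith
  · intro f hf1 hf2
    have hmin := min_le_right c₁ c₂
    have hlt2 : M f < 2 := by linarith
    obtain ⟨g, h, hg, hgn, hgr, hm, hi, hrec, hspl, hto, hfrom⟩ := hpair f hf1 (by linarith)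
    have hg0 : n₀ ≤ g.natDegree := (le_max_left _ _).trans hgn
    have hg1 : n₁ ≤ g.natDegree := ((le_max_left _ _).trans (le_max_right _ _)).trans hgn
    have hg2 : n₂ ≤ g.natDegree :=
      (((le_max_left _ _).trans (le_max_right _ _)).trans (le_max_right _ _)).trans hgn
    have hg3 : n₃ ≤ g.natDegree :=
      (((le_max_right _ _).trans (le_max_right _ _)).trans (le_max_right _ _)).trans hgn
    have hsol := hcore (rat f).SplittingField (M f) g h hg hlt2 hg0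
      hgr hm hi hspl hto hfrom
    refine ⟨h, hm, hi, ?_, ?_, ?_, ?_, ?_, ?_, ?_⟩
    · exact hspl
    · rw [hrec]; exact hg.one_lt
    · rw [hrec]; exact hg.le
    · exact hsol
    · exact hcoreU (rat f).SplittingField (M f) g h hg hlt2 hg3 hgr hm hi hrec hspl hfrom hsol
    · intro N T hN hT
      have hna := nonAb_of_noSolv hsol N T hN hT
      have hlt := hcoreX (rat f).SplittingField (M f) g h hg hlt2 hg1 hgr hm hi hspl hto hfrom
        N T hN hT hna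
      have hdeg := (recip_monic h hm).2
      rw [hrec] at hdeg
      rw [hdeg] at hlt
      exact ⟨hna, hlt⟩
    · exact hcoreAS (rat f).SplittingField (M f) g h hg hlt2 hg2 hgr hm hi hrec hspl hfrom
        hsol

end Pool.Agent.Lib.MP_7ab245_nt.Solv
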