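import Mathlib
import Pool.Agent.Lib.MP_7ab245_nt.Solv.F.Core
import Pool.Agent.Lib.MP_7ab245_nt.Solv.F.SmallDeg
import Pool.Agent.Lib.MP_7ab245_nt.Solv.F.NonRecip
import Pool.Agent.Lib.MP_7ab245_nt.Solv.F.Inst

/-! Part F: the theorem on solvable Galois groups from Theorem A and Theorem B. -/

set_option autoImplicit false

open Polynomial

namespace Pool.Agent.Lib.MP_7ab245_nt.Solv

theorem final : ∃ c : ℝ, 0 < c ∧
    (∀ f : ℤ[X], 1 < M f → Group.IsSolvable (rat f).Gal → 1 + c ≤ M f) ∧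
    (∀ f : ℤ[X], 1 < M f → M f < 1 + c → ∃ h : ℤ[X], h.Monic ∧ Irreducible h ∧
      (h.map (Int.castRingHom (rat f).SplittingField)).Splits ∧
      1 < M (recip h) ∧ M (recip h) ≤ M f ∧
      ∀ N : Subgroup (rat h).Gal, N.Normal → Group.IsSolvable N → N = ⊥) := by
  obtain ⟨n₀, hcore⟩ := coreF
  obtain ⟨c₁, hc₁, hsmall⟩ := small_degree n₀
  obtain ⟨c₂, hc₂, hnr⟩ := nonrecip
  set c : ℝ := min (min c₁ c₂) (1 / 2) with hc
  have hcpos : 0 < c := by
    rw [hc]; exact lt_min (lt_min hc₁ hc₂) (by norm_num)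
  have hcc₁ : c ≤ c₁ := (min_le_left _ _).trans (min_le_left _ _)
  have hcc₂ : c ≤ c₂ := (min_le_left _ _).trans (min_le_right _ _)
  have hc2 : c ≤ 1 / 2 := min_le_right _ _
  have part2 : ∀ f : ℤ[X], 1 < M f → M f < 1 + c → ∃ h : ℤ[X], h.Monic ∧ Irreducible h ∧
      (h.map (Int.castRingHom (rat f).SplittingField)).Splits ∧
      1 < M (recip h) ∧ M (recip h) ≤ M f ∧
      ∀ N : Subgroup (rat h).Gal, N.Normal → Group.IsSolvable N → N = ⊥ := by
    intro f hf1 hf2
    have hf0 : f ≠ 0 := ne_zero_of_one_lt_M hf1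
    have hlt2 : M f < 2 := by linarith
    obtain ⟨g, hg⟩ := exists_minPoly (rat f).SplittingField f hf1 hlt2 (splits_self f)
    have hgn : n₀ ≤ g.natDegree := by
      by_contra hcon
      have := hsmall g (by omega) hg.one_lt
      have := hg.le
      linarith
    have hgr : g ∣ g.reverse := hnr g hg.irr hg.one_lt (by have := hg.le; linarith)
    obtain ⟨h, hm, hi, hrec, hspl, hto, hfrom⟩ := exists_trace hg hlt2 hgr
    refine ⟨h, hm, hi, ?_, ?_, ?_, ?_⟩
    · exact hspl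
    · rw [hrec]; exact hg.one_lt
    · rw [hrec]; exact hg.le
    · exact hcore (rat f).SplittingField (M f) g h hg hlt2 hgn hgr hm hi hspl hto hfrom
  refine ⟨c, hcpos, ?_, part2⟩
  intro f hf1 hsol
  by_contra hcon
  push Not at hcon
  obtain ⟨h, hm, hi, hspl, h1, h2, hN⟩ := part2 f hf1 hcon
  have hsolh : Group.IsSolvable (rat h).Gal := solvable_gal f h hm.ne_zero hspl hsol
  have htop : (⊤ : Subgroup (rat h).Gal) = ⊥ :=
    hN ⊤ inferInstance inferInstance
  have hdeg := natDegree_eq_one h hm hi htop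
  obtain ⟨a, ha⟩ : ∃ a : ℤ, h = X - C a := by
    refine ⟨-h.coeff 0, ?_⟩
    have := Polynomial.eq_X_add_C_of_natDegree_le_one (p := h) (by omega)
    have hl : h.coeff 1 = 1 := by
      have := hm.coeff_natDegree
      rwa [hdeg] at this
    rw [hl] at this
    rw [this]
    simp
  rw [ha] at h1 h2
  have := M_recip_X_sub_C a h1
  linarith

end Pool.Agent.Lib.MP_7ab245_nt.Solv
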